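import Pool.Agent.Lib.MP_60829e_nt.FZ.DegDefs
import Pool.Agent.Lib.MP_60829e_nt.FR.Dep
import Pool.Agent.Lib.MP_60829e_nt.MFinal

/-! # The base of the recursion for a space of logarithms with Q1 up to a degree -/

open MvPolynomial Module

namespace MP60829e.FZ

open MP60829e.ST (Qa Lsp Lt)
open MP60829e.FQ (GoodP pw)
open MP60829e.FR (PT za kp ep)

/-- A polynomial `PT ι P` at an arbitrary point is `P` at a point which depends linearly on it. -/
theorem eval_PT_all {N n n' : ℕ} (ι : Fin n' ↪ Fin n) (P : MvPolynomial (Fin N ⊕ Fin n) ℂ)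
    (z' : Fin (N + kp ι) → Qa) : ∃ A : Fin n → Fin n' → Qa, ∀ x' : Fin n' → ℂ,
      eval (Sum.elim (fun l => (z' l : ℂ)) x') (PT ι P) =
        eval (Sum.elim (fun l => (z' (Fin.castAdd _ l) : ℂ)) fun i => ∑ j, A i j • x' j) P := by
  classical
  obtain ⟨A, hA⟩ : ∃ A : Fin n → Fin n' → Qa, A = fun i j =>
      if h : i ∈ (Set.range ι)ᶜ then z' (Fin.natAdd N (ep ι (⟨i, h⟩, j)))
      else if ι j = i then 1 else 0 := ⟨_, rfl⟩
  have hι : ∀ (x' : Fin n' → ℂ) (k : Fin n'), ∑ j, A (ι k) j • x' j = x' k := by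
    intro x' k
    have h1 : ∀ j, A (ι k) j • x' j = if j = k then x' k else 0 := by
      intro j
      rw [hA]
      dsimp only
      rw [dif_neg (by simp)]
      by_cases hj : j = k
      · rw [if_pos (by rw [hj]), if_pos hj, one_smul, hj]
      · rw [if_neg (fun h => hj (ι.injective h)), if_neg hj, zero_smul]
    simp only [h1, Finset.sum_ite_eq', Finset.mem_univ, if_true]
  have hz : za ι (fun l => z' (Fin.castAdd _ l)) A = z' := by
    unfold za
    funext l
    refine Fin.addCases (fun l => ?_) (fun k => ?_) l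
    · rw [Fin.append_left]
    · rw [Fin.append_right, hA]
      dsimp only
      rw [dif_pos (((ep ι).symm k).1).2]
      congr 2
      exact (ep ι).apply_symm_apply k
  refine ⟨A, fun x' => ?_⟩
  have h := FR.eval_PT ι P (fun l => z' (Fin.castAdd _ l)) A (fun i => ∑ j, A i j • x' j)
    (fun i => Finset.sum_congr rfl fun j _ => by rw [hι])
  rw [hz] at h
  rw [← h]
  congr 2
  funext s
  rcases s with l | j
  · rfl
  · exact (hι x' j).symm

/-- `1` and independent elements of the space of logarithms are independent. -/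
theorem affine_zero {n : ℕ} {w : Fin n → ℂ} (hw : ∀ j, w j ∈ Lsp) (hli : LinearIndependent Qa w)
    {a : Qa} {b : Fin n → Qa} (h : (a : ℂ) + ∑ j, b j • w j = 0) : a = 0 ∧ ∀ j, b j = 0 := by
  have hmem : ∑ j, b j • w j ∈ Lsp := Submodule.sum_mem _ fun j _ => Lsp.smul_mem _ (hw j)
  have ha : a = 0 := by
    by_contra ha
    have h1 : (1 : ℂ) = (-a⁻¹) • ∑ j, b j • w j := by
      have h2 : ∑ j, b j • w j = -(a : ℂ) := by linear_combination h
      have h3 : (a : ℂ) ≠ 0 := fun h0 => ha (Subtype.ext h0)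
      rw [h2, Algebra.smul_def]
      have h4 : algebraMap Qa ℂ (-a⁻¹) = -(a : ℂ)⁻¹ := by
        rw [map_neg, map_inv₀]
        rfl
      rw [h4, neg_mul_neg, inv_mul_cancel₀ h3]
    apply Pool.Agent.Lib.MP_60829e_nt.ML.one_notMem
    rw [h1]
    exact Lsp.smul_mem _ hmem
  refine ⟨ha, fun j => ?_⟩
  rw [ha, ZeroMemClass.coe_zero, zero_add] at h
  exact Fintype.linearIndependent_iff.1 hli b h j

/-- The base: a space of logarithms on which Q1 holds up to the degree `D`. -/
theorem goodP_E {N n D : ℕ} (P : MvPolynomial (Fin N ⊕ Fin n) ℂ)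
    (hU : ∀ z : Fin N → Qa, ∃ g : MvPolynomial (Fin n) ℂ,
      (∀ a, IsAlgebraic ℚ (coeff a g)) ∧ g.totalDegree ≤ D ∧
        ∀ x : Fin n → ℂ, eval (Sum.elim (fun l => (z l : ℂ)) x) P = eval x g)
    {E : Submodule ℚ ℂ} (hE : ∀ l ∈ E, IsAlgebraic ℚ (Complex.exp l)) (hQ : Q1Deg n D E)
    {X : Submodule Qa ℂ} (hX : X ≤ Submodule.span Qa (E : Set ℂ)) {n' : ℕ}
    (ι : Fin n' ↪ Fin n) : GoodP (PT ι P) X ⊥ := by
  classical
  intro n'' ι' z' c _ w hw hli _ h0 v
  obtain ⟨A, hA⟩ := eval_PT_all ι P z'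
  obtain ⟨g, hg, hD, hev⟩ := hU fun l => z' (Fin.castAdd _ l)
  have hwL : ∀ j, w j ∈ Lsp := by
    intro j
    refine Submodule.span_mono ?_ (hX (hw j))
    exact fun l hl => hE l hl
  -- the point
  have hpt : ∀ u : Fin n'' → ℂ, eval (pw z' c ι' u) (PT ι P) =
      eval (fun i => ∑ j, A i j • ((c j : ℂ) + Function.extend ι' u 0 j)) g := by
    intro u
    unfold pw
    rw [hA, ← hev]
  rw [hpt] at h0 ⊢
  -- the affine form of a combination
  have hsum : ∀ (q : Fin n → Qa) (u : Fin n'' → ℂ),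
      ∑ i, (q i : ℂ) * ∑ j, A i j • ((c j : ℂ) + Function.extend ι' u 0 j) =
        ((∑ i, q i * ∑ j, A i j * c j : Qa) : ℂ) +
          ∑ k, (∑ i, q i * A i (ι' k)) • u k := by
    intro q u
    have hext : ∀ i, ∑ j, A i j • Function.extend ι' u 0 j = ∑ k, A i (ι' k) • u k := by
      intro i
      rw [← Finset.sum_subset (Finset.subset_univ (Finset.univ.map ι'))]
      · rw [Finset.sum_map]
        refine Finset.sum_congr rfl fun k _ => ?_
        rw [ι'.injective.extend_apply]
      · intro j _ hj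
        rw [Function.extend_apply']
        · exact smul_zero _
        · rintro ⟨k, rfl⟩
          exact hj (Finset.mem_map_of_mem _ (Finset.mem_univ k))
    have h1 : ∀ i, (q i : ℂ) * ∑ j, A i j • ((c j : ℂ) + Function.extend ι' u 0 j) =
        ((q i * ∑ j, A i j * c j : Qa) : ℂ) + ∑ k, (q i * A i (ι' k)) • u k := by
      intro i
      simp only [smul_add, Finset.sum_add_distrib]
      rw [hext, mul_add, Finset.mul_sum]
      congr 1
      · push_cast
        rw [Finset.mul_sum]
        refine Finset.sum_congr rfl fun j _ => ?_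
        rfl
      · rw [Finset.mul_sum]
        refine Finset.sum_congr rfl fun k _ => ?_
        rw [mul_smul]
        rfl
    rw [Finset.sum_congr rfl fun i _ => h1 i, Finset.sum_add_distrib]
    congr 1
    · push_cast
      rfl
    · rw [Finset.sum_comm]
      refine Finset.sum_congr rfl fun k _ => ?_
      rw [Finset.sum_smul]
  refine hQ g hg hD _ ?_ h0 _ ?_
  · intro i
    refine Submodule.sum_mem _ fun j _ => Submodule.smul_mem _ _ (Submodule.add_mem _ ?_ ?_)
    · have h1 : (c j : ℂ) = c j • (1 : ℂ) := by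
        rw [Algebra.smul_def, mul_one]
        rfl
      rw [h1]
      exact Submodule.smul_mem _ _ (Submodule.subset_span (Or.inl rfl))
    · by_cases hj : ∃ k, ι' k = j
      · obtain ⟨k, rfl⟩ := hj
        rw [ι'.injective.extend_apply]
        exact Submodule.span_mono Set.subset_union_right (hX (hw k))
      · rw [Function.extend_apply' _ _ _ hj]
        exact Submodule.zero_mem _
  · intro q₀ q hq₀ hq h
    obtain ⟨q₀', rfl⟩ : ∃ q₀' : Qa, q₀ = (q₀' : ℂ) := ⟨⟨q₀, mem_algebraicClosure_iff.2 hq₀⟩, rfl⟩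
    obtain ⟨q', rfl⟩ : ∃ q' : Fin n → Qa, q = fun i => (q' i : ℂ) :=
      ⟨fun i => ⟨q i, mem_algebraicClosure_iff.2 (hq i)⟩, rfl⟩
    rw [hsum, ← add_assoc, ← AddMemClass.coe_add] at h ⊢
    obtain ⟨h1, h2⟩ := affine_zero hwL hli h
    rw [h1, ZeroMemClass.coe_zero, zero_add]
    exact Finset.sum_eq_zero fun k _ => by rw [h2 k, zero_smul]

end MP60829e.FZ
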