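import Pool.Agent.Lib.MP_60829e_nt.FR.Good
import Pool.Agent.Lib.MP_60829e_nt.FC.Basis
import Pool.Agent.Lib.MP_60829e_nt.FC.Dim

/-! # Corollaries of Theorem Q-infinity

`kF Φ` is the span over the algebraic numbers of the logarithms in the kernel of `Φ`. All corollaries
start from `GoodR P (kF Φ) ⊥` (no exceptions) or from a finite-dimensional exceptional space `V`. -/

open MvPolynomial Module

namespace MP60829e.FZ

open MP60829e.ST (Qa Lsp Lt)
open MP60829e.FR (Rels GoodR)

/-- The span over the algebraic numbers of the logarithms in the kernel of `Φ`. -/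
noncomputable def kF {m : ℕ} (Φ : ℂ →ₗ[ℚ] (Fin m → ℚ)) : Submodule Qa ℂ :=
  Submodule.span Qa {l : ℂ | IsAlgebraic ℚ (Complex.exp l) ∧ Φ l = 0}

/-! ## Baker's theorem for finite families -/

theorem baker_fin {I : Type} [Finite I] (w : I → ℂ)
    (h : ∀ j, IsAlgebraic ℚ (Complex.exp (w j))) (hli : LinearIndependent ℚ w) :
    LinearIndependent Qa w := by
  classical
  have : Fintype I := Fintype.ofFinite I
  rw [Fintype.linearIndependent_iff]
  intro g hg p
  have h1 := Pool.Agent.Lib.MP_60829e_nt.Bk.baker_hom w h hli (fun i => ((g i : Qa) : ℂ))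
    (fun i => mem_algebraicClosure_iff.mp (g i).2) (by
      rw [← hg]
      refine Finset.sum_congr rfl fun i _ => ?_
      rw [mul_comm]
      rfl) p
  exact Subtype.ext h1

/-- All tuples satisfy the (nonexistent) relations of an independent tuple. -/
theorem rels_of_li {n : ℕ} {w : Fin n → ℂ} (h : LinearIndependent Qa w) (x : Fin n → ℂ) :
    Rels w x := by
  intro q hq
  have h1 := (Fintype.linearIndependent_iff.1 h) q hq
  simp only [h1, zero_smul, Finset.sum_const_zero]

theorem aeval_eq {n : ℕ} (g : MvPolynomial (Fin n) Qa) (x : Fin n → ℂ) :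
    aeval x g = eval x (map (algebraMap Qa ℂ) g) := by
  rw [eval_map]
  rfl

/-! ## Relations of bounded degree -/

private theorem totalDegree_map_le' {n : ℕ} (f : MvPolynomial (Fin n) Qa) :
    (map (algebraMap Qa ℂ) f).totalDegree ≤ f.totalDegree := by
  refine Finset.sup_mono ?_
  exact support_map_subset (algebraMap Qa ℂ) f

private theorem totalDegree_finsetSum_le' {n N D : ℕ} (f : Fin N → MvPolynomial (Fin n) Qa)
    (h : ∀ q, (f q).totalDegree ≤ D) : (∑ q, f q).totalDegree ≤ D :=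
  (totalDegree_finsetSum Finset.univ f).trans (Finset.sup_le fun q _ => h q)

private theorem totalDegree_map_eq' {n : ℕ} (f : MvPolynomial (Fin n) Qa) :
    (map (algebraMap Qa ℂ) f).totalDegree = f.totalDegree := by
  have h := support_map_of_injective f (algebraMap Qa ℂ).injective
  rw [totalDegree, totalDegree, h]

/-- The universal polynomial of degree `D`: its specialisations are the polynomials of degree at
most `D`. -/
theorem exists_univ' (n D : ℕ) : ∃ P : MvPolynomial (Fin ((n + D).choose n) ⊕ Fin n) ℂ,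
    (∀ a, IsAlgebraic ℚ (coeff a P)) ∧
      (∀ g : MvPolynomial (Fin n) Qa, g.totalDegree ≤ D → ∃ z : Fin ((n + D).choose n) → Qa,
        ∀ x : Fin n → ℂ, eval (Sum.elim (fun l => (z l : ℂ)) x) P = aeval x g) ∧
      ∀ z : Fin ((n + D).choose n) → Qa, ∃ g : MvPolynomial (Fin n) Qa, g.totalDegree ≤ D ∧
        ∀ x : Fin n → ℂ, eval (Sum.elim (fun l => (z l : ℂ)) x) P = aeval x g := by
  classical
  obtain ⟨A, hA⟩ : ∃ A : Submodule Qa ℂ, A = Submodule.span Qa {(1 : ℂ)} := ⟨_, rfl⟩
  have hfin : FiniteDimensional Qa A := by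
    rw [hA]
    exact FiniteDimensional.span_of_finite Qa (Set.finite_singleton _)
  have hA1 : finrank Qa A ≤ 1 := by
    rw [hA]
    exact (finrank_span_singleton one_ne_zero).le
  have hmemA : ∀ c : Qa, (c : ℂ) ∈ A := by
    intro c
    rw [hA, Submodule.mem_span_singleton]
    exact ⟨c, by rw [Algebra.smul_def, mul_one]; rfl⟩
  have hex := FC.exists_gens A hA1 n D
  rw [one_mul] at hex
  obtain ⟨g, hg, hgen⟩ := hex
  have hgq : ∀ q, ∃ g' : MvPolynomial (Fin n) Qa, map (algebraMap Qa ℂ) g' = g q := by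
    intro q
    have h1 : g q ∈ Set.range (map (algebraMap Qa ℂ) : MvPolynomial (Fin n) Qa → _) := by
      rw [mem_range_map_iff_coeffs_subset]
      intro c hc
      obtain ⟨a, -, rfl⟩ := Finset.mem_coe.1 hc |> Finset.mem_image.1
      have h2 := (hg q).2 a
      rw [hA, Submodule.mem_span_singleton] at h2
      obtain ⟨b, hb⟩ := h2
      exact ⟨b, by rw [← hb, Algebra.smul_def, mul_one]⟩
    exact h1
  choose g' hg' using hgq
  have hev : ∀ (y : Fin ((n + D).choose n) → Qa) (x : Fin n → ℂ),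
      eval (Sum.elim (fun l => (y l : ℂ)) x)
        (map (algebraMap Qa ℂ) (∑ q, X (Sum.inl q) * rename Sum.inr (g' q))) =
          eval x (∑ q, y q • g q) := by
    intro y x
    rw [map_sum, map_sum, map_sum]
    refine Finset.sum_congr rfl fun q _ => ?_
    rw [map_mul, map_mul, map_X, eval_X, Sum.elim_inl, map_rename, eval_rename, hg']
    have h2 : y q • g q = ((y q : Qa) : ℂ) • g q := rfl
    rw [h2, smul_eval]
    rfl
  refine ⟨map (algebraMap Qa ℂ) (∑ q, X (Sum.inl q) * rename Sum.inr (g' q)), ?_, ?_, ?_⟩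
  · intro a
    rw [coeff_map]
    exact mem_algebraicClosure_iff.mp (Subtype.mem _)
  · intro f hf
    have h1 : map (algebraMap Qa ℂ) f ∈ FC.PD A n D := by
      rw [FC.mem_PD]
      refine ⟨(totalDegree_map_le' f).trans hf, fun a => ?_⟩
      rw [coeff_map]
      exact hmemA _
    obtain ⟨y, hy⟩ := hgen _ h1
    refine ⟨y, fun x => ?_⟩
    rw [hev, aeval_eq, hy]
  · intro z
    refine ⟨∑ q, z q • g' q, ?_, fun x => ?_⟩
    · refine totalDegree_finsetSum_le' _ fun q => ?_
      refine (totalDegree_smul_le (z q) (g' q)).trans ?_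
      rw [← totalDegree_map_eq', hg']
      exact (hg q).1
    · rw [hev, aeval_eq, map_sum, map_sum, map_sum]
      refine Finset.sum_congr rfl fun q _ => ?_
      have h2 : z q • g q = ((z q : Qa) : ℂ) • g q := rfl
      have h3 : z q • g' q = C (z q) * g' q := by rw [smul_eq_C_mul]
      rw [h2, h3, smul_eval, map_mul, map_mul, map_C, eval_C, hg']
      rfl

/-- The universal polynomial of degree `D`. -/
theorem exists_univ (n D : ℕ) : ∃ P : MvPolynomial (Fin ((n + D).choose n) ⊕ Fin n) ℂ,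
    (∀ a, IsAlgebraic ℚ (coeff a P)) ∧
      ∀ g : MvPolynomial (Fin n) Qa, g.totalDegree ≤ D → ∃ z : Fin ((n + D).choose n) → Qa,
        ∀ x : Fin n → ℂ, eval (Sum.elim (fun l => (z l : ℂ)) x) P = aeval x g := by
  obtain ⟨P, h1, h2, -⟩ := exists_univ' n D
  exact ⟨P, h1, h2⟩

/-- The same with polynomials over the complex numbers with algebraic coefficients. -/
theorem exists_univC (n D : ℕ) : ∃ P : MvPolynomial (Fin ((n + D).choose n) ⊕ Fin n) ℂ,
    (∀ a, IsAlgebraic ℚ (coeff a P)) ∧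
      (∀ g : MvPolynomial (Fin n) ℂ, (∀ a, IsAlgebraic ℚ (coeff a g)) → g.totalDegree ≤ D →
        ∃ z : Fin ((n + D).choose n) → Qa,
          ∀ x : Fin n → ℂ, eval (Sum.elim (fun l => (z l : ℂ)) x) P = eval x g) ∧
      ∀ z : Fin ((n + D).choose n) → Qa, ∃ g : MvPolynomial (Fin n) ℂ,
        (∀ a, IsAlgebraic ℚ (coeff a g)) ∧ g.totalDegree ≤ D ∧
          ∀ x : Fin n → ℂ, eval (Sum.elim (fun l => (z l : ℂ)) x) P = eval x g := by
  obtain ⟨P, h1, h2, h3⟩ := exists_univ' n D
  refine ⟨P, h1, fun g hg hD => ?_, fun z => ?_⟩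
  · have hr : g ∈ Set.range (map (algebraMap Qa ℂ) : MvPolynomial (Fin n) Qa → _) := by
      rw [mem_range_map_iff_coeffs_subset]
      intro c hc
      obtain ⟨a, -, rfl⟩ := Finset.mem_coe.1 hc |> Finset.mem_image.1
      exact ⟨⟨coeff a g, mem_algebraicClosure_iff.2 (hg a)⟩, rfl⟩
    obtain ⟨g', rfl⟩ := hr
    obtain ⟨z, hz⟩ := h2 g' (by rw [← totalDegree_map_eq']; exact hD)
    exact ⟨z, fun x => by rw [hz x, aeval_eq]⟩
  · obtain ⟨g', hD, hg'⟩ := h3 z
    refine ⟨map (algebraMap Qa ℂ) g', fun a => ?_, (totalDegree_map_le' g').trans hD, fun x => ?_⟩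
    · rw [coeff_map]
      exact mem_algebraicClosure_iff.mp (Subtype.mem _)
    · rw [hg' x, aeval_eq]

/-- Relations of degree at most `D` between elements of `kF Φ` are consequences of the linear
relations. -/
theorem cor_degree {n D m N : ℕ} (Φ : ℂ →ₗ[ℚ] (Fin m → ℚ))
    (P : MvPolynomial (Fin N ⊕ Fin n) ℂ)
    (hP : ∀ g : MvPolynomial (Fin n) Qa, g.totalDegree ≤ D → ∃ z : Fin N → Qa,
      ∀ x : Fin n → ℂ, eval (Sum.elim (fun l => (z l : ℂ)) x) P = aeval x g)
    (h : GoodR P (kF Φ) ⊥) (w : Fin n → ℂ) (hw : ∀ j, w j ∈ kF Φ)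
    (g : MvPolynomial (Fin n) Qa) (hg : g.totalDegree ≤ D) (h0 : aeval w g = 0)
    (x : Fin n → ℂ) (hx : Rels w x) : aeval x g = 0 := by
  obtain ⟨z, hz⟩ := hP g hg
  rw [← hz x]
  exact h z w hw disjoint_bot_right (by rw [hz w]; exact h0) x hx

/-- Q1 up to the degree `D` for the logarithms in the kernel of `Φ`. -/
theorem cor_degree_li {n D m N : ℕ} (Φ : ℂ →ₗ[ℚ] (Fin m → ℚ))
    (P : MvPolynomial (Fin N ⊕ Fin n) ℂ)
    (hP : ∀ g : MvPolynomial (Fin n) Qa, g.totalDegree ≤ D → ∃ z : Fin N → Qa,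
      ∀ x : Fin n → ℂ, eval (Sum.elim (fun l => (z l : ℂ)) x) P = aeval x g)
    (h : GoodR P (kF Φ) ⊥) (w : Fin n → ℂ)
    (hw : ∀ j, IsAlgebraic ℚ (Complex.exp (w j)) ∧ Φ (w j) = 0) (hli : LinearIndependent ℚ w)
    (g : MvPolynomial (Fin n) Qa) (hg : g.totalDegree ≤ D) (h0 : aeval w g = 0) : g = 0 := by
  have hli' := baker_fin w (fun j => (hw j).1) hli
  have h1 : map (algebraMap Qa ℂ) g = 0 := by
    apply MvPolynomial.funext
    intro x
    rw [← aeval_eq, map_zero]
    exact cor_degree Φ P hP h w (fun j => Submodule.subset_span (hw j)) g hg h0 x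
      (rels_of_li hli' x)
  exact map_injective _ (algebraMap Qa ℂ).injective (by rw [h1, map_zero])

/-! ## Matrices: the rank is the structural rank -/

/-- The family `det (X + Z)`. -/
theorem exists_det (d : ℕ) : ∃ P : MvPolynomial (Fin (d * d) ⊕ Fin (d * d)) ℂ,
    (∀ a, IsAlgebraic ℚ (coeff a P)) ∧ ∀ (z : Fin (d * d) → Qa) (x : Fin (d * d) → ℂ),
      eval (Sum.elim (fun l => (z l : ℂ)) x) P =
        (Matrix.of fun i j => x (finProdFinEquiv (i, j)) +
          (z (finProdFinEquiv (i, j)) : ℂ)).det := by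
  classical
  refine ⟨map (algebraMap Qa ℂ) (Matrix.of fun i j : Fin d =>
    (X (Sum.inr (finProdFinEquiv (i, j))) + X (Sum.inl (finProdFinEquiv (i, j))) :
      MvPolynomial (Fin (d * d) ⊕ Fin (d * d)) Qa)).det, ?_, ?_⟩
  · intro a
    rw [coeff_map]
    exact mem_algebraicClosure_iff.mp (Subtype.mem _)
  · intro z x
    rw [RingHom.map_det, RingHom.map_det]
    congr 1
    ext i j
    simp only [RingHom.mapMatrix_apply, Matrix.map_apply, Matrix.of_apply, map_add, map_X, eval_X,
      Sum.elim_inl, Sum.elim_inr]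

private theorem rank_add_le' {d : ℕ} (A B : Matrix (Fin d) (Fin d) ℂ) :
    (A + B).rank ≤ A.rank + B.rank := by
  unfold Matrix.rank
  rw [Matrix.mulVecLin_add]
  refine (Submodule.finrank_mono (?_ : _ ≤ LinearMap.range A.mulVecLin ⊔
    LinearMap.range B.mulVecLin)).trans (Submodule.finrank_add_le_finrank_add_finrank _ _)
  rintro _ ⟨v, rfl⟩
  exact Submodule.add_mem_sup ⟨v, rfl⟩ ⟨v, rfl⟩

/-- The complex form of `exists_alg_compl`. -/
private theorem exists_compl {d : ℕ} (M' : Matrix (Fin d) (Fin d) ℂ) :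
    ∃ (t : ℕ) (A : Matrix (Fin d) (Fin t) ℂ) (B : Matrix (Fin t) (Fin d) ℂ),
      t + M'.rank = d ∧ (M' + A * B).det ≠ 0 := by
  classical
  obtain ⟨f, hf⟩ : ∃ f : (Fin d → ℂ) →ₗ[ℂ] (Fin d → ℂ), f = Matrix.toLin' M' := ⟨_, rfl⟩
  obtain ⟨K', hK'⟩ := Submodule.exists_isCompl (LinearMap.ker f)
  obtain ⟨R', hR'⟩ := Submodule.exists_isCompl (LinearMap.range f)
  have hdim := LinearMap.finrank_range_add_finrank_ker f
  rw [finrank_fintype_fun_eq_card, Fintype.card_fin] at hdim
  have hdim' := Submodule.finrank_add_eq_of_isCompl hR'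
  rw [finrank_fintype_fun_eq_card, Fintype.card_fin] at hdim'
  have hKR : finrank ℂ (LinearMap.ker f) = finrank ℂ R' := by omega
  let e : LinearMap.ker f ≃ₗ[ℂ] R' := LinearEquiv.ofFinrankEq _ _ hKR
  let b : LinearMap.ker f ≃ₗ[ℂ] (Fin (finrank ℂ (LinearMap.ker f)) → ℂ) :=
    (finBasis ℂ (LinearMap.ker f)).equivFun
  let π : (Fin d → ℂ) →ₗ[ℂ] LinearMap.ker f := Submodule.projectionOnto _ _ hK'
  let β : (Fin d → ℂ) →ₗ[ℂ] (Fin (finrank ℂ (LinearMap.ker f)) → ℂ) := b.toLinearMap ∘ₗ π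
  let α : (Fin (finrank ℂ (LinearMap.ker f)) → ℂ) →ₗ[ℂ] (Fin d → ℂ) :=
    R'.subtype ∘ₗ e.toLinearMap ∘ₗ b.symm.toLinearMap
  have hαβ : ∀ v, α (β v) = (e (π v) : Fin d → ℂ) := by
    intro v
    simp [α, β]
  refine ⟨finrank ℂ (LinearMap.ker f), LinearMap.toMatrix' α, LinearMap.toMatrix' β, ?_, ?_⟩
  · have h1 : M'.rank = finrank ℂ (LinearMap.range f) := by
      rw [hf]
      rfl
    rw [h1]
    omega
  · have h1 : LinearMap.toMatrix' α * LinearMap.toMatrix' β = LinearMap.toMatrix' (α ∘ₗ β) :=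
      (LinearMap.toMatrix'_comp α β).symm
    have hfM : LinearMap.toMatrix' f = M' := by
      rw [hf, LinearMap.toMatrix'_toLin']
    have h2 : M' + LinearMap.toMatrix' (α ∘ₗ β) = LinearMap.toMatrix' (f + α ∘ₗ β) := by
      rw [map_add, hfM]
    rw [h1, h2]
    have hinj : Function.Injective (f + α ∘ₗ β) := by
      rw [← LinearMap.ker_eq_bot, LinearMap.ker_eq_bot']
      intro v hv
      have h3 : f v + (e (π v) : Fin d → ℂ) = 0 := by
        rw [← hαβ]
        exact hv
      have h4 : f v = 0 := by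
        have h5 : f v ∈ LinearMap.range f ⊓ R' := by
          refine ⟨⟨v, rfl⟩, ?_⟩
          rw [eq_neg_of_add_eq_zero_left h3]
          exact R'.neg_mem (e (π v)).2
        rw [hR'.inf_eq_bot] at h5
        exact (Submodule.mem_bot ℂ).1 h5
      rw [h4, zero_add] at h3
      have h5 : e (π v) = 0 := Subtype.ext h3
      have h6 : π v = 0 := by
        rw [← e.map_eq_zero_iff]
        exact h5
      have h7 : π v = ⟨v, h4⟩ := Submodule.projectionOnto_apply_left hK' ⟨v, h4⟩
      rw [h7] at h6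
      exact congrArg Subtype.val h6
    intro hdet
    have h3 : LinearMap.det (f + α ∘ₗ β) = 0 := by
      rw [← LinearMap.det_toMatrix']
      exact hdet
    have h4 := LinearMap.bot_lt_ker_of_det_eq_zero h3
    rw [LinearMap.ker_eq_bot.2 hinj] at h4
    exact lt_irrefl _ h4

/-- PROOF. Let `s` be the rank of `M'`. There is a complex matrix of rank at most `d - s` whose sum with `M'`
is invertible (an isomorphism of the kernel of `M'` onto a complement of its image), so
`det (M' + A B) ≠ 0` for some complex `A` (`d × (d - s)`), `B` (`(d - s) × d`), so for some rational `A`, `B`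
(`MvPolynomial.funext_set`). -/
theorem exists_alg_compl {d : ℕ} (M' : Matrix (Fin d) (Fin d) ℂ) :
    ∃ W : Matrix (Fin d) (Fin d) Qa, (W.map (fun q : Qa => (q : ℂ))).rank + M'.rank ≤ d ∧
      (M' + W.map (fun q : Qa => (q : ℂ))).det ≠ 0 := by
  classical
  obtain ⟨t, A0, B0, ht, hdet⟩ := exists_compl M'
  let σ : Type := (Fin d × Fin t) ⊕ (Fin t × Fin d)
  let Q : MvPolynomial σ ℂ := (M'.map (C : ℂ → MvPolynomial σ ℂ) +
    (Matrix.of fun i k => X (Sum.inl (i, k)) : Matrix (Fin d) (Fin t) (MvPolynomial σ ℂ)) *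
    (Matrix.of fun k j => X (Sum.inr (k, j)) : Matrix (Fin t) (Fin d) (MvPolynomial σ ℂ))).det
  have hev : ∀ (A : Matrix (Fin d) (Fin t) ℂ) (B : Matrix (Fin t) (Fin d) ℂ),
      eval (Sum.elim (fun p => A p.1 p.2) (fun p => B p.1 p.2)) Q = (M' + A * B).det := by
    intro A B
    simp only [Q]
    rw [RingHom.map_det]
    congr 1
    ext i j
    simp only [RingHom.mapMatrix_apply, Matrix.map_apply, Matrix.add_apply, map_add, eval_C,
      Matrix.mul_apply, map_sum, map_mul, Matrix.of_apply, eval_X, Sum.elim_inl, Sum.elim_inr]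
  have hQ : Q ≠ 0 := by
    intro h
    apply hdet
    rw [← hev, h, map_zero]
  have hex : ∃ x : σ → ℚ, eval (fun s => ((x s : ℚ) : ℂ)) Q ≠ 0 := by
    by_contra hcon
    push Not at hcon
    apply hQ
    refine MvPolynomial.funext_set (fun _ => Set.range fun q : ℚ => (q : ℂ))
      (fun _ => Set.infinite_range_of_injective Rat.cast_injective) ?_
    intro x hx
    have hx' : ∀ i, ∃ q : ℚ, (q : ℂ) = x i := fun i => hx i (Set.mem_univ i)
    choose q hq using hx'
    have h1 := hcon q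
    have h2 : (fun s => ((q s : ℚ) : ℂ)) = x := funext hq
    rw [h2] at h1
    rw [h1, map_zero]
  obtain ⟨x, hx⟩ := hex
  let A : Matrix (Fin d) (Fin t) Qa := Matrix.of fun i k => ((x (Sum.inl (i, k)) : ℚ) : Qa)
  let B : Matrix (Fin t) (Fin d) Qa := Matrix.of fun k j => ((x (Sum.inr (k, j)) : ℚ) : Qa)
  have hmap : (A * B).map (fun q : Qa => (q : ℂ)) =
      A.map (fun q : Qa => (q : ℂ)) * B.map (fun q : Qa => (q : ℂ)) := by
    have h1 := Matrix.map_mul (L := A) (M := B) (f := (algebraMap Qa ℂ))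
    exact h1
  refine ⟨A * B, ?_, ?_⟩
  · rw [hmap]
    have h1 := (Matrix.rank_mul_le_left (A.map (fun q : Qa => (q : ℂ)))
      (B.map (fun q : Qa => (q : ℂ)))).trans (Matrix.rank_le_width _)
    omega
  · rw [hmap, ← hev]
    have h1 : (Sum.elim (fun p : Fin d × Fin t => A.map (fun q : Qa => (q : ℂ)) p.1 p.2)
        (fun p : Fin t × Fin d => B.map (fun q : Qa => (q : ℂ)) p.1 p.2)) =
        fun s => ((x s : ℚ) : ℂ) := by
      funext s
      rcases s with p | p
      · simp [A]
      · simp [B]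
    rw [h1]
    exact hx

/-- Every matrix `M` with entries in `kF Φ` has the largest rank of the matrices which satisfy all the
linear relations over the algebraic numbers between the entries of `M`. -/
theorem cor_matrix {d m : ℕ} (Φ : ℂ →ₗ[ℚ] (Fin m → ℚ))
    (P : MvPolynomial (Fin (d * d) ⊕ Fin (d * d)) ℂ)
    (hP : ∀ (z : Fin (d * d) → Qa) (x : Fin (d * d) → ℂ),
      eval (Sum.elim (fun l => (z l : ℂ)) x) P =
        (Matrix.of fun i j => x (finProdFinEquiv (i, j)) +
          (z (finProdFinEquiv (i, j)) : ℂ)).det)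
    (h : GoodR P (kF Φ) ⊥) (M M' : Matrix (Fin d) (Fin d) ℂ) (hM : ∀ i j, M i j ∈ kF Φ)
    (hrel : ∀ q : Fin d → Fin d → Qa, ∑ i, ∑ j, q i j • M i j = 0 →
      ∑ i, ∑ j, q i j • M' i j = 0) : M'.rank ≤ M.rank := by
  classical
  obtain ⟨W, hW, hdet⟩ := exists_alg_compl M'
  obtain ⟨z, hz⟩ : ∃ z : Fin (d * d) → Qa,
      z = fun k => W (finProdFinEquiv.symm k).1 (finProdFinEquiv.symm k).2 := ⟨_, rfl⟩
  have hzW : ∀ (N : Matrix (Fin d) (Fin d) ℂ),
      eval (Sum.elim (fun l => (z l : ℂ))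
        (fun k => N (finProdFinEquiv.symm k).1 (finProdFinEquiv.symm k).2)) P =
          (N + W.map (fun q : Qa => (q : ℂ))).det := by
    intro N
    rw [hP]
    congr 1
    ext i j
    simp only [Matrix.of_apply, Matrix.add_apply, Matrix.map_apply, hz, Equiv.symm_apply_apply]
  have h1 : (M + W.map (fun q : Qa => (q : ℂ))).det ≠ 0 := by
    intro h0
    apply hdet
    rw [← hzW]
    refine h z (fun k => M (finProdFinEquiv.symm k).1 (finProdFinEquiv.symm k).2)
      (fun k => hM _ _) disjoint_bot_right (by rw [hzW]; exact h0) _ ?_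
    intro q hq
    have h2 : ∀ N : Matrix (Fin d) (Fin d) ℂ,
        ∑ k, q k • N (finProdFinEquiv.symm k).1 (finProdFinEquiv.symm k).2 =
          ∑ i, ∑ j, q (finProdFinEquiv (i, j)) • N i j := by
      intro N
      rw [← Equiv.sum_comp finProdFinEquiv, Fintype.sum_prod_type]
      simp only [Equiv.symm_apply_apply]
    rw [h2] at hq ⊢
    exact hrel _ hq
  have h2 : (M + W.map (fun q : Qa => (q : ℂ))).rank = d := by
    rw [Matrix.rank_of_det_ne_zero h1, Fintype.card_fin]
  have h3 := rank_add_le' M (W.map (fun q : Qa => (q : ℂ)))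
  omega

end MP60829e.FZ
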