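import Mathlib

/-! # Q1 up to a degree, on a space of logarithms -/

open MvPolynomial Module

namespace MP60829e.FZ

/-- Q1 (in the strong form of Roy) for `n` numbers and up to the degree `D`, for the space `F` of
logarithms: each polynomial relation of degree at most `D` with algebraic coefficients between `n`
numbers `w j` in the span of `1` and `F` over the algebraic numbers is a consequence of the affine
relations with algebraic coefficients between the `w j`. -/
def Q1Deg (n D : ℕ) (F : Submodule ℚ ℂ) : Prop :=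
  ∀ g : MvPolynomial (Fin n) ℂ, (∀ a, IsAlgebraic ℚ (coeff a g)) → g.totalDegree ≤ D →
    ∀ w : Fin n → ℂ, (∀ j, w j ∈ Submodule.span (algebraicClosure ℚ ℂ) ({1} ∪ (F : Set ℂ))) →
      eval w g = 0 → ∀ x : Fin n → ℂ,
        (∀ (q₀ : ℂ) (q : Fin n → ℂ), IsAlgebraic ℚ q₀ → (∀ j, IsAlgebraic ℚ (q j)) →
          q₀ + ∑ j, q j * w j = 0 → q₀ + ∑ j, q j * x j = 0) → eval x g = 0

end MP60829e.FZ
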