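import Pool.Agent.Lib.MP_60829e_nt.FC.Basis

/-! # A rational basis of the space of the logarithms which starts with a basis of `E` -/

open Module

namespace MP60829e.FZ

open MP60829e.ST (Qa Lsp Lt)

/-- The logarithms. -/
private def LgS : Set ℂ := {z : ℂ | IsAlgebraic ℚ (Complex.exp z)}

private theorem countable_LgS : LgS.Countable := by
  obtain ⟨mu, hmu, hmuli, hmuspan⟩ := FC.exists_lam
  have h2 : Countable (Submodule.span ℚ (Set.range mu)) :=
    (Basis.span hmuli).repr.toEquiv.injective.countable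
  exact (show (Submodule.span ℚ (Set.range mu) : Set ℂ).Countable from h2).mono
    fun z hz => hmuspan z hz

private theorem infinite_of_span (T : Set ℂ) (h : LgS ⊆ Submodule.span ℚ T) : T.Infinite := by
  intro hT
  obtain ⟨mu, hmu, hmuli, -⟩ := FC.exists_lam
  have hfin : FiniteDimensional ℚ (Submodule.span ℚ T) := FiniteDimensional.span_of_finite ℚ hT
  have h1 : LinearIndependent ℚ fun j : ℕ => (⟨mu j, h (hmu j)⟩ : Submodule.span ℚ T) := by
    apply LinearIndependent.of_comp (Submodule.span ℚ T).subtype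
    exact hmuli
  have h2 : Finite ℕ := h1.finite_of_isNoetherian
  exact not_finite ℕ

/-- A finite independent family of logarithms extends to a basis numbered by the natural numbers. -/
private theorem exists_ext {s : ℕ} (v : Fin s → ℂ) (hv : LinearIndependent ℚ v)
    (hvL : ∀ i, v i ∈ LgS) : ∃ lam : ℕ → ℂ, (∀ i : Fin s, lam i = v i) ∧ (∀ j, lam j ∈ LgS) ∧
      LinearIndependent ℚ lam ∧ LgS ⊆ Submodule.span ℚ (Set.range lam) := by
  classical
  have hs : LinearIndepOn ℚ id (Set.range v) := hv.linearIndepOn_id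
  have hsub : Set.range v ⊆ LgS := by
    rintro _ ⟨i, rfl⟩
    exact hvL i
  set T : Set ℂ := hs.extend hsub with hT
  have hTL : T ⊆ LgS := hs.extend_subset hsub
  have hST : Set.range v ⊆ T := hs.subset_extend hsub
  have hspan : LgS ⊆ Submodule.span ℚ T := by
    exact hs.subset_span_extend hsub
  have hTli : LinearIndependent ℚ (fun x : T => (x : ℂ)) := hs.linearIndepOn_extend hsub
  have hTinf : T.Infinite := infinite_of_span T hspan
  have hTS : (T \ Set.range v).Infinite := hTinf.sdiff (Set.finite_range v)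
  have hTSc : (T \ Set.range v).Countable := (countable_LgS.mono hTL).mono Set.sdiff_subset
  have hinf : Infinite ↥(T \ Set.range v) := hTS.to_subtype
  have hcou : Countable ↥(T \ Set.range v) := hTSc.to_subtype
  obtain ⟨hd⟩ := nonempty_denumerable ↥(T \ Set.range v)
  let e : ↥(T \ Set.range v) ≃ ℕ := Denumerable.eqv _
  -- the family in `T`
  let g : ℕ → T := fun j => if h : j < s then ⟨v ⟨j, h⟩, hST ⟨_, rfl⟩⟩ else
    ⟨(e.symm (j - s) : ℂ), (e.symm (j - s)).2.1⟩
  have hg1 : ∀ j (h : j < s), (g j : ℂ) = v ⟨j, h⟩ := by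
    intro j h
    simp only [g, dif_pos h]
  have hg2 : ∀ j (_ : ¬ j < s), (g j : ℂ) = (e.symm (j - s) : ℂ) := by
    intro j h
    simp only [g, dif_neg h]
  have hg : Function.Injective g := by
    intro i j hij
    have hij' : (g i : ℂ) = (g j : ℂ) := congrArg Subtype.val hij
    by_cases hi : i < s
    · by_cases hj : j < s
      · rw [hg1 i hi, hg1 j hj] at hij'
        exact congrArg Fin.val (hv.injective hij')
      · rw [hg1 i hi, hg2 j hj] at hij'
        exact absurd ⟨_, hij'⟩ (e.symm (j - s)).2.2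
    · by_cases hj : j < s
      · rw [hg2 i hi, hg1 j hj] at hij'
        exact absurd ⟨_, hij'.symm⟩ (e.symm (i - s)).2.2
      · rw [hg2 i hi, hg2 j hj] at hij'
        have h1 := e.symm.injective (Subtype.ext hij')
        omega
  refine ⟨fun j => (g j : ℂ), fun i => hg1 i i.2, fun j => hTL (g j).2, hTli.comp g hg, ?_⟩
  have hrange : T ⊆ Set.range fun j => (g j : ℂ) := by
    intro z hz
    by_cases h : z ∈ Set.range v
    · obtain ⟨i, rfl⟩ := h
      exact ⟨i, hg1 i i.2⟩
    · refine ⟨e ⟨z, hz, h⟩ + s, ?_⟩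
      have h1 : ¬ (e ⟨z, hz, h⟩ + s < s) := by omega
      show (g (e ⟨z, hz, h⟩ + s) : ℂ) = z
      rw [hg2 _ h1, Nat.add_sub_cancel, Equiv.symm_apply_apply]
  exact hspan.trans (Submodule.span_mono hrange)

/-- PROOF. Extend a basis of `E` to a basis of the space of the logarithms; number the basis of `E`
first. -/
theorem exists_lamE (E : Submodule ℚ ℂ) [FiniteDimensional ℚ E]
    (hE : ∀ l ∈ E, IsAlgebraic ℚ (Complex.exp l)) :
    ∃ (s : ℕ) (lam : ℕ → ℂ), Submodule.span ℚ (Set.range fun j : Fin s => lam j) = E ∧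
      (∀ j, IsAlgebraic ℚ (Complex.exp (lam j))) ∧ LinearIndependent ℚ lam ∧
        ∀ z : ℂ, IsAlgebraic ℚ (Complex.exp z) → z ∈ Submodule.span ℚ (Set.range lam) := by
  let b := finBasis ℚ E
  have hb : LinearIndependent ℚ fun i => (b i : ℂ) :=
    b.linearIndependent.map' E.subtype (Submodule.ker_subtype _)
  obtain ⟨lam, h1, h2, h3, h4⟩ := exists_ext (fun i => (b i : ℂ)) hb fun i => hE _ (b i).2
  refine ⟨finrank ℚ E, lam, ?_, h2, h3, fun z hz => h4 hz⟩
  have h5 : (fun j : Fin (finrank ℚ E) => lam j) = fun i => (b i : ℂ) := funext h1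
  rw [h5]
  have h6 := congrArg (Submodule.map E.subtype) b.span_eq
  rw [Submodule.map_span, ← Set.range_comp, Submodule.map_top, Submodule.range_subtype] at h6
  exact h6

end MP60829e.FZ
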