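import Pool.Agent.Lib.MP_60829e_nt.FZ.Final
import Pool.Agent.Lib.MP_60829e_nt.FZ.DegDefs
import Pool.Agent.Lib.MP_60829e_nt.FZ.Cor
import Pool.Agent.Lib.MP_60829e_nt.FZ.BaseE
import Pool.Agent.Lib.MP_60829e_nt.FZ.LamE
import Pool.Agent.Lib.MP_60829e_nt.Assemble

/-! # The final theorem with an arbitrary starting space -/

open MvPolynomial Module

namespace MP60829e.FZ

open MP60829e.ST (Qa Lsp Lt)
open MP60829e.FC (Xr Gen)
open MP60829e.FQ (XQ GoodP)
open MP60829e.FR (Rels PT)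

/-- The universal polynomial with more parameters. -/
theorem exists_univN (n D N : ℕ) (h : (n + D).choose n ≤ N) :
    ∃ P : MvPolynomial (Fin N ⊕ Fin n) ℂ,
      (∀ g : MvPolynomial (Fin n) ℂ, (∀ a, IsAlgebraic ℚ (coeff a g)) → g.totalDegree ≤ D →
        ∃ z : Fin N → Qa, ∀ x : Fin n → ℂ, eval (Sum.elim (fun l => (z l : ℂ)) x) P = eval x g) ∧
      ∀ z : Fin N → Qa, ∃ g : MvPolynomial (Fin n) ℂ,
        (∀ a, IsAlgebraic ℚ (coeff a g)) ∧ g.totalDegree ≤ D ∧
          ∀ x : Fin n → ℂ, eval (Sum.elim (fun l => (z l : ℂ)) x) P = eval x g := by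
  obtain ⟨P, -, h2, h3⟩ := exists_univC n D
  have hev : ∀ (z : Fin N → Qa) (x : Fin n → ℂ),
      eval (Sum.elim (fun l => (z l : ℂ)) x)
        (rename (Sum.map (Fin.castLE h) id) P) =
      eval (Sum.elim (fun l => (z (Fin.castLE h l) : ℂ)) x) P := by
    intro z x
    rw [eval_rename]
    congr 2
    funext s
    rcases s with l | i
    · rfl
    · rfl
  refine ⟨rename (Sum.map (Fin.castLE h) id) P, fun g hg hD => ?_, fun z => ?_⟩
  · obtain ⟨z, hz⟩ := h2 g hg hD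
    refine ⟨fun l => if hl : (l : ℕ) < (n + D).choose n then z ⟨l, hl⟩ else 0, fun x => ?_⟩
    rw [hev, ← hz x]
    congr 3
    funext l
    have hl : ((Fin.castLE h l : Fin N) : ℕ) < (n + D).choose n := l.2
    rw [dif_pos hl]
    rfl
  · obtain ⟨g, hg, hD, hz⟩ := h3 fun l => z (Fin.castLE h l)
    exact ⟨g, hg, hD, fun x => by rw [hev, hz x]⟩

/-- Translation by a vector with algebraic coordinates. -/
theorem exists_shift {n D : ℕ} (g : MvPolynomial (Fin n) ℂ) (hg : ∀ a, IsAlgebraic ℚ (coeff a g))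
    (hD : g.totalDegree ≤ D) (c : Fin n → Qa) : ∃ g' : MvPolynomial (Fin n) ℂ,
      (∀ a, IsAlgebraic ℚ (coeff a g')) ∧ g'.totalDegree ≤ D ∧
        ∀ x : Fin n → ℂ, eval x g' = eval (fun i => (c i : ℂ) + x i) g := by
  obtain ⟨Q, rfl⟩ := exists_map g hg
  have hinj : Function.Injective (algebraMap Qa ℂ) := (algebraMap Qa ℂ).injective
  have hdeg : ∀ R : MvPolynomial (Fin n) Qa,
      (MvPolynomial.map (algebraMap Qa ℂ) R).totalDegree = R.totalDegree := by
    intro R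
    unfold MvPolynomial.totalDegree
    rw [support_map_of_injective _ hinj]
  refine ⟨MvPolynomial.map (algebraMap Qa ℂ) (aeval (fun i => C (c i) + X i) Q),
    coeff_map_alg _, ?_, fun x => ?_⟩
  · rw [hdeg]
    rw [hdeg] at hD
    refine (MP60829e.totalDegree_aeval_le _ (fun i => ?_) Q).trans hD
    refine (totalDegree_add _ _).trans (max_le ?_ ?_)
    · rw [totalDegree_C]
      exact Nat.zero_le 1
    · exact (totalDegree_X i).le
  · have key : ∀ R : MvPolynomial (Fin n) Qa,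
        eval x (MvPolynomial.map (algebraMap Qa ℂ) (aeval (fun i => C (c i) + X i) R)) =
          eval (fun i => (c i : ℂ) + x i) (MvPolynomial.map (algebraMap Qa ℂ) R) := by
      intro R
      induction R using MvPolynomial.induction_on with
      | C a => rw [algHom_C, MvPolynomial.algebraMap_eq, map_C, eval_C, eval_C]
      | add p q hp hq => rw [map_add, map_add, map_add, hp, hq, map_add, map_add]
      | mul_X p i hp =>
        rw [map_mul, map_mul, map_mul, hp, aeval_X, map_mul, map_mul, map_add, map_C, map_X,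
          map_add, eval_C, eval_X, eval_X]
        rfl
    exact key Q

/-- From linear combinations without constant term to linear combinations with constant term. -/
theorem q1deg_of {n D N : ℕ} (P : MvPolynomial (Fin N ⊕ Fin n) ℂ)
    (hP1 : ∀ g : MvPolynomial (Fin n) ℂ, (∀ a, IsAlgebraic ℚ (coeff a g)) → g.totalDegree ≤ D →
        ∃ z : Fin N → Qa, ∀ x : Fin n → ℂ, eval (Sum.elim (fun l => (z l : ℂ)) x) P = eval x g)
    (F : Submodule ℚ ℂ)
    (h : ∀ (z : Fin N → Qa) (w : Fin n → ℂ), (∀ j, w j ∈ Submodule.span Qa (F : Set ℂ)) →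
      eval (Sum.elim (fun l => (z l : ℂ)) w) P = 0 →
        ∀ x : Fin n → ℂ, Rels w x → eval (Sum.elim (fun l => (z l : ℂ)) x) P = 0) :
    Q1Deg n D F := by
  intro g hg hD w hw h0 x hx
  have hw' : ∀ j, ∃ (c : Qa) (v : ℂ), v ∈ Submodule.span Qa (F : Set ℂ) ∧ w j = (c : ℂ) + v := by
    intro j
    have h1 := hw j
    rw [Submodule.span_union, Submodule.mem_sup] at h1
    obtain ⟨y, hy, v, hv, hyv⟩ := h1
    obtain ⟨c, rfl⟩ := Submodule.mem_span_singleton.1 hy
    refine ⟨c, v, hv, ?_⟩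
    rw [← hyv]
    congr 1
    rw [smul_eqZ, mul_one]
  choose c v hv hcv using hw'
  obtain ⟨g', hg', hD', he⟩ := exists_shift g hg hD c
  obtain ⟨z, hz⟩ := hP1 g' hg' hD'
  have h1 : eval (Sum.elim (fun l => (z l : ℂ)) v) P = 0 := by
    rw [hz, he, ← h0]
    congr 2
    funext j
    exact (hcv j).symm
  have h2 := h z v hv h1 (fun j => x j - (c j : ℂ)) ?_
  · rw [hz, he] at h2
    rw [← h2]
    congr 2
    funext j
    ring
  · intro q hq
    have h3 := hx (-∑ j, (q j : ℂ) * (c j : ℂ)) (fun j => (q j : ℂ)) ?_ ?_ ?_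
    · have h4 : ∑ j, q j • (x j - (c j : ℂ)) =
          -∑ j, (q j : ℂ) * (c j : ℂ) + ∑ j, (q j : ℂ) * x j := by
        rw [neg_add_eq_sub, ← Finset.sum_sub_distrib]
        refine Finset.sum_congr rfl fun j _ => ?_
        rw [smul_eqZ]
        ring
      rw [h4]
      exact h3
    · refine IsAlgebraic.neg ?_
      have h5 : (∑ j, (q j : ℂ) * (c j : ℂ)) = ((∑ j, q j * c j : Qa) : ℂ) := by
        push_cast
        rfl
      rw [h5]
      exact mem_algebraicClosure_iff.1 (∑ j, q j * c j : Qa).2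
    · exact fun j => mem_algebraicClosure_iff.1 (q j).2
    · have h6 : ∑ j, (q j : ℂ) * w j = ∑ j, (q j : ℂ) * (c j : ℂ) + ∑ j, q j • v j := by
        rw [← Finset.sum_add_distrib]
        refine Finset.sum_congr rfl fun j _ => ?_
        rw [hcv j, smul_eqZ]
        ring
      rw [h6, hq, add_zero, neg_add_cancel]

/-- The number of parameters bounds the degree. -/
theorem le_of_choose {n D N : ℕ} (hn : 1 ≤ n) (h : (n + D).choose n ≤ N) : D < N + 1 := by
  have h1 : D + 1 ≤ (n + D).choose n := by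
    rw [add_comm n D]
    calc D + 1 = (D + 1).choose 1 := (Nat.choose_one_right _).symm
      _ = (D + 1).choose D := by
        rw [← Nat.choose_symm (by omega : 1 ≤ D + 1), Nat.add_sub_cancel]
      _ ≤ (D + n).choose D := Nat.choose_le_choose D (by omega)
      _ = (D + n).choose n := by
        rw [← Nat.choose_symm (by omega : D ≤ D + n), Nat.add_sub_cancel_left]
  omega

/-- The final theorem. -/
theorem ext (n N m : ℕ) (hm : N + n * (n + 2) + 1 ≤ m) (E : Submodule ℚ ℂ)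
    [FiniteDimensional ℚ E] (hE : ∀ l ∈ E, IsAlgebraic ℚ (Complex.exp l))
    (P : ℕ → MvPolynomial (Fin N ⊕ Fin n) ℂ) :
    ∃ (Φ : ℂ →ₗ[ℚ] (Fin m → ℚ)) (F : Submodule ℚ ℂ) (V : ℕ → Submodule ℚ ℂ),
      (∀ l : ℂ, l ∈ F ↔ IsAlgebraic ℚ (Complex.exp l) ∧ Φ l = 0) ∧ E ≤ F ∧
      (∀ D : ℕ, (n + D).choose n ≤ N → Q1Deg n D E → Q1Deg n D F) ∧
      V 0 = E ∧ Monotone V ∧ (∀ i, V i ≤ F ∧ FiniteDimensional ℚ (V i)) ∧
      ∀ (z : Fin N → ℂ) (w : Fin n → ℂ), (∀ l, IsAlgebraic ℚ (z l)) →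
        (∀ j, w j ∈ Submodule.span (algebraicClosure ℚ ℂ) (F : Set ℂ)) →
        ∀ i, Disjoint (Submodule.span (algebraicClosure ℚ ℂ) (Set.range w))
            (Submodule.span (algebraicClosure ℚ ℂ) (V i : Set ℂ)) →
          (eval (Sum.elim z w) (P i) = 0 →
            ∀ x : Fin n → ℂ, (∀ q : Fin n → ℂ, (∀ j, IsAlgebraic ℚ (q j)) →
              ∑ j, q j * w j = 0 → ∑ j, q j * x j = 0) → eval (Sum.elim z x) (P i) = 0) ∧
          (N + (n + 2) ^ 2 ≤ m → (∀ a, IsAlgebraic ℚ (coeff a (P i))) →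
            eval (Sum.elim z w) (P i) ∈ Submodule.span (algebraicClosure ℚ ℂ)
              ({1} ∪ {l : ℂ | IsAlgebraic ℚ (Complex.exp l)}) →
            ∃ (b : ℂ) (a : Fin n → ℂ), IsAlgebraic ℚ b ∧ (∀ j, IsAlgebraic ℚ (a j)) ∧
              ∀ x : Fin n → ℂ, (∀ q : Fin n → ℂ, (∀ j, IsAlgebraic ℚ (q j)) →
                ∑ j, q j * w j = 0 → ∑ j, q j * x j = 0) →
                eval (Sum.elim z x) (P i) = b + ∑ j, a j * x j) := by
  classical
  obtain ⟨s, lam, hlamE, halg, hli, hspan⟩ := exists_lamE E hE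
  -- the universal polynomials
  have hR : ∀ D : Fin (N + 1), ∃ R : MvPolynomial (Fin N ⊕ Fin n) ℂ,
      (n + (D : ℕ)).choose n ≤ N →
      (∀ g : MvPolynomial (Fin n) ℂ, (∀ a, IsAlgebraic ℚ (coeff a g)) → g.totalDegree ≤ D →
        ∃ z : Fin N → Qa, ∀ x : Fin n → ℂ,
          eval (Sum.elim (fun l => (z l : ℂ)) x) R = eval x g) ∧
      ∀ z : Fin N → Qa, ∃ g : MvPolynomial (Fin n) ℂ,
        (∀ a, IsAlgebraic ℚ (coeff a g)) ∧ g.totalDegree ≤ D ∧
          ∀ x : Fin n → ℂ, eval (Sum.elim (fun l => (z l : ℂ)) x) R = eval x g := by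
    intro D
    by_cases h : (n + (D : ℕ)).choose n ≤ N
    · obtain ⟨R, h1, h2⟩ := exists_univN n D N h
      exact ⟨R, fun _ => ⟨h1, h2⟩⟩
    · exact ⟨0, fun h' => absurd h' h⟩
  choose R hR using hR
  obtain ⟨x, Φ, hΦ, hx0, hmain1, hmain2⟩ := main_genS n N m s hm P R lam halg hli hspan
  have hF : ∀ l : ℂ, l ∈ SE.Lg ⊓ LinearMap.ker Φ ↔ IsAlgebraic ℚ (Complex.exp l) ∧ Φ l = 0 := by
    intro l
    rw [Submodule.mem_inf, LinearMap.mem_ker]
    rfl
  have hFs : ((SE.Lg ⊓ LinearMap.ker Φ : Submodule ℚ ℂ) : Set ℂ) =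
      {l : ℂ | IsAlgebraic ℚ (Complex.exp l) ∧ Φ l = 0} := by
    ext l
    exact hF l
  have hV0 : XQ lam x (0 + s) = E := by
    rw [zero_add, ← hlamE]
    refine le_antisymm (FQ.XQ_le lam x s) ?_
    rw [Submodule.span_le]
    rintro _ ⟨j, rfl⟩
    refine ⟨fun i => if i = j then 1 else 0, fun t => ?_, ?_⟩
    · refine Finset.sum_eq_zero fun i _ => ?_
      rw [hx0 i i.2, Pi.zero_apply, mul_zero]
    · rw [Finset.sum_eq_single j]
      · beta_reduce
        rw [if_pos rfl, Rat.cast_one, one_mul]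
      · intro i _ hi
        beta_reduce
        rw [if_neg hi, Rat.cast_zero, zero_mul]
      · intro h
        exact absurd (Finset.mem_univ j) h
  have hVF : ∀ i, XQ lam x (i + s) ≤ SE.Lg ⊓ LinearMap.ker Φ := fun i v hv =>
    (hF v).2 (FQ.XQ_sub lam halg x Φ hΦ (i + s) v hv)
  refine ⟨Φ, SE.Lg ⊓ LinearMap.ker Φ, fun i => XQ lam x (i + s), hF, ?_, ?_, hV0,
    fun i j hij => FQ.XQ_mono lam x (Nat.add_le_add_right hij s),
    fun i => ⟨hVF i, FQ.finite_XQ lam x (i + s)⟩, ?_⟩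
  · rw [← hV0]
    exact hVF 0
  · intro D hD hQ
    rcases Nat.eq_zero_or_pos n with rfl | hn
    · intro g _ _ w _ h0 y _
      rw [Subsingleton.elim y w]
      exact h0
    · have hDN := le_of_choose hn hD
      obtain ⟨h1, h2⟩ := hR ⟨D, hDN⟩ hD
      refine q1deg_of (R ⟨D, hDN⟩) h1 _ ?_
      rw [hFs]
      refine hmain1 ⟨D, hDN⟩ (fun n' ι => goodP_E (R ⟨D, hDN⟩) h2 hE hQ ?_ ι)
      rintro _ ⟨c, -, rfl⟩
      refine Submodule.sum_mem _ fun j _ => Submodule.smul_mem _ _ (Submodule.subset_span ?_)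
      rw [← hlamE]
      exact Submodule.subset_span ⟨j, rfl⟩
  · intro z w hz hw i hd
    obtain ⟨z', rfl⟩ : ∃ z' : Fin N → Qa, z = fun l => (z' l : ℂ) :=
      ⟨fun l => ⟨z l, mem_algebraicClosure_iff.2 (hz l)⟩, rfl⟩
    rw [hFs] at hw
    obtain ⟨h3, h4⟩ := hmain2 z' w hw i (hd.mono_right (FQ.Xr_le_span lam x (i + s)))
    refine ⟨fun h0 v hv => h3 h0 v (rels_of hv), fun hm2 hP h0 => ?_⟩
    obtain ⟨b, a, hab⟩ := h4 hP hm2 h0
    exact ⟨b, fun j => a j, mem_algebraicClosure_iff.1 b.2,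
      fun j => mem_algebraicClosure_iff.1 (a j).2, fun v hv => hab v (rels_of hv)⟩

end MP60829e.FZ
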