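import Pool.Agent.Lib.MP_60829e_nt.FZ.Ext

/-! # The multiples of `2 π i` satisfy Q1 in every degree -/

open MvPolynomial Module

namespace MP60829e.FZ

open MP60829e.ST (Qa Lsp Lt)
open MP60829e.FC (Xr Gen)
open MP60829e.FQ (XQ GoodP)
open MP60829e.FR (Rels PT)

theorem Q1Deg.mono {n D : ℕ} {E F : Submodule ℚ ℂ} (h : E ≤ F) (hF : Q1Deg n D F) :
    Q1Deg n D E := by
  intro g hg hD w hw h0 x hx
  refine hF g hg hD w (fun j => Submodule.span_mono ?_ (hw j)) h0 x hx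
  exact Set.union_subset_union_right _ h

theorem q1deg_two_pi (n D : ℕ) : Q1Deg n D (Submodule.span ℚ {2 * Real.pi * Complex.I}) := by
  obtain ⟨lam, hlam0, halg, hli, hspan⟩ := exists_lam0
  have hlam := FC.baker lam halg hli
  have hl0 : ¬ IsAlgebraic ℚ (lam 0) := by
    intro h
    have h0 : lam 0 ≠ 0 := hlam.ne_zero 0
    have h1 : (⟨lam 0, mem_algebraicClosure_iff.2 h⟩ : Qa)⁻¹ • lam 0 ∈ Lsp :=
      Lsp.smul_mem _ (Submodule.subset_span (halg 0))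
    have h2 : (⟨lam 0, mem_algebraicClosure_iff.2 h⟩ : Qa)⁻¹ • lam 0 = 1 := by
      change (lam 0)⁻¹ * lam 0 = 1
      exact inv_mul_cancel₀ h0
    rw [h2] at h1
    exact Pool.Agent.Lib.MP_60829e_nt.ML.one_notMem h1
  obtain ⟨P, hP, h2, -⟩ := exists_univC n D
  refine q1deg_of P h2 _ fun z w hw h0 x hx => ?_
  refine FR.dep_main (X := Xr lam (0 : ℕ → Fin 0 → ℚ) 1) (V := ⊥)
    (fun n' ι => goodP_pi lam hl0 0 _ (PT_alg ι P hP)) z w (fun j => ?_) disjoint_bot_right h0 x hx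
  have h3 : Submodule.span Qa ((Submodule.span ℚ {2 * Real.pi * Complex.I} : Submodule ℚ ℂ) :
      Set ℂ) ≤ Xr lam (0 : ℕ → Fin 0 → ℚ) 1 := by
    rw [Submodule.span_le]
    intro v hv
    obtain ⟨q, rfl⟩ := Submodule.mem_span_singleton.1 hv
    refine FC.mem_Xr.2 ⟨fun _ => (q : Qa), fun s => s.elim0, ?_⟩
    rw [Fin.sum_univ_succ, Finset.univ_eq_empty, Finset.sum_empty, add_zero]
    have h4 : lam ((0 : Fin 1) : ℕ) = 2 * Real.pi * Complex.I := hlam0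
    rw [h4, smul_eqZ, Rat.smul_def]
    norm_cast
  exact h3 (hw j)

/-- The final theorem for relations with value zero. -/
theorem extA (n N m : ℕ) (hm : N + n * (n + 2) + 1 ≤ m) (E : Submodule ℚ ℂ)
    [FiniteDimensional ℚ E] (hE : ∀ l ∈ E, IsAlgebraic ℚ (Complex.exp l))
    (P : ℕ → MvPolynomial (Fin N ⊕ Fin n) ℂ) :
    ∃ (Φ : ℂ →ₗ[ℚ] (Fin m → ℚ)) (F : Submodule ℚ ℂ) (V : ℕ → Submodule ℚ ℂ),
      (∀ l : ℂ, l ∈ F ↔ IsAlgebraic ℚ (Complex.exp l) ∧ Φ l = 0) ∧ E ≤ F ∧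
      (∀ D : ℕ, (n + D).choose n ≤ N →
        E ≤ Submodule.span ℚ {2 * Real.pi * Complex.I} ∨ Q1Deg n D E → Q1Deg n D F) ∧
      V 0 = E ∧ Monotone V ∧ (∀ i, V i ≤ F ∧ FiniteDimensional ℚ (V i)) ∧
      ∀ (i : ℕ) (z : Fin N → ℂ) (w : Fin n → ℂ), (∀ l, IsAlgebraic ℚ (z l)) →
        (∀ j, w j ∈ Submodule.span (algebraicClosure ℚ ℂ) (F : Set ℂ)) →
        Disjoint (Submodule.span (algebraicClosure ℚ ℂ) (Set.range w))
          (Submodule.span (algebraicClosure ℚ ℂ) (V i : Set ℂ)) →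
        eval (Sum.elim z w) (P i) = 0 →
          ∀ x : Fin n → ℂ, (∀ q : Fin n → ℂ, (∀ j, IsAlgebraic ℚ (q j)) →
            ∑ j, q j * w j = 0 → ∑ j, q j * x j = 0) → eval (Sum.elim z x) (P i) = 0 := by
  obtain ⟨Φ, F, V, h1, h2, h3, h4, h5, h6, h7⟩ := ext n N m hm E hE P
  refine ⟨Φ, F, V, h1, h2, fun D hD hQ => h3 D hD ?_, h4, h5, h6,
    fun i z w hz hw hd => (h7 z w hz hw i hd).1⟩
  rcases hQ with h | h
  · exact (q1deg_two_pi n D).mono h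
  · exact h

end MP60829e.FZ
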