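import Pool.Agent.Lib.MP_60829e_nt.FZ.Start

/-! # Spaces of dimension at most one satisfy Q1 in every degree -/

open MvPolynomial Module

namespace MP60829e.FZ

open MP60829e.ST (Qa Lsp Lt)
open MP60829e.FC (Xr Gen)
open MP60829e.FQ (XQ GoodP)
open MP60829e.FR (Rels PT)

theorem q1deg_line (n D : ℕ) (lam : ℕ → ℂ)
    (halg : ∀ j, IsAlgebraic ℚ (Complex.exp (lam j))) (hli : LinearIndependent ℚ lam) :
    Q1Deg n D (Submodule.span ℚ {lam 0}) := by
  have hlam := FC.baker lam halg hli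
  have hl0 : ¬ IsAlgebraic ℚ (lam 0) := by
    intro h
    have h0 : lam 0 ≠ 0 := hlam.ne_zero 0
    have h1 : (⟨lam 0, mem_algebraicClosure_iff.2 h⟩ : Qa)⁻¹ • lam 0 ∈ Lsp :=
      Lsp.smul_mem _ (Submodule.subset_span (halg 0))
    have h2 : (⟨lam 0, mem_algebraicClosure_iff.2 h⟩ : Qa)⁻¹ • lam 0 = 1 := by
      change (lam 0)⁻¹ * lam 0 = 1
      exact inv_mul_cancel₀ h0
    rw [h2] at h1
    exact Pool.Agent.Lib.MP_60829e_nt.ML.one_notMem h1
  obtain ⟨P, hP, h2, -⟩ := exists_univC n D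
  refine q1deg_of P h2 _ fun z w hw h0 x hx => ?_
  refine FR.dep_main (X := Xr lam (0 : ℕ → Fin 0 → ℚ) 1) (V := ⊥)
    (fun n' ι => goodP_pi lam hl0 0 _ (PT_alg ι P hP)) z w (fun j => ?_) disjoint_bot_right h0 x hx
  have h3 : Submodule.span Qa ((Submodule.span ℚ {lam 0} : Submodule ℚ ℂ) :
      Set ℂ) ≤ Xr lam (0 : ℕ → Fin 0 → ℚ) 1 := by
    rw [Submodule.span_le]
    intro v hv
    obtain ⟨q, rfl⟩ := Submodule.mem_span_singleton.1 hv
    refine FC.mem_Xr.2 ⟨fun _ => (q : Qa), fun s => s.elim0, ?_⟩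
    rw [Fin.sum_univ_succ, Finset.univ_eq_empty, Finset.sum_empty, add_zero]
    have h4 : lam ((0 : Fin 1) : ℕ) = lam 0 := rfl
    rw [h4, smul_eqZ, Rat.smul_def]
    norm_cast
  exact h3 (hw j)

theorem q1deg_one (n D : ℕ) (E : Submodule ℚ ℂ) [FiniteDimensional ℚ E]
    (hE : ∀ l ∈ E, IsAlgebraic ℚ (Complex.exp l)) (h1 : finrank ℚ E ≤ 1) : Q1Deg n D E := by
  obtain ⟨s, lam, hlamE, halg, hli, hspan⟩ := exists_lamE E hE
  have hs : s = finrank ℚ E := by
    have h2 : LinearIndependent ℚ (fun j : Fin s => lam j) :=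
      hli.comp (fun j : Fin s => (j : ℕ)) Fin.val_injective
    have h3 := finrank_span_eq_card h2
    rw [Fintype.card_fin] at h3
    rw [← h3, ← hlamE]
  refine (q1deg_line n D lam halg hli).mono ?_
  rw [← hlamE, Submodule.span_le]
  rintro _ ⟨j, rfl⟩
  have hj : (j : ℕ) = 0 := by
    have := j.2
    omega
  beta_reduce
  rw [hj]
  exact Submodule.subset_span rfl

end MP60829e.FZ
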