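import Pool.Agent.Lib.MP_60829e_nt.FC.Basis

/-! # Multiplicative form, all branches -/

open MvPolynomial Module

namespace MP60829e.FZ

open MP60829e.ST (Qa Lsp Lt)

private theorem bakerFin {I : Type} [Finite I] (w : I → ℂ)
    (h : ∀ j, IsAlgebraic ℚ (Complex.exp (w j))) (hli : LinearIndependent ℚ w) :
    LinearIndependent Qa w := by
  classical
  have : Fintype I := Fintype.ofFinite I
  rw [Fintype.linearIndependent_iff]
  intro g hg p
  have h1 := Pool.Agent.Lib.MP_60829e_nt.Bk.baker_hom w h hli (fun i => ((g i : Qa) : ℂ))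
    (fun i => mem_algebraicClosure_iff.mp (g i).2) (by
      rw [← hg]
      refine Finset.sum_congr rfl fun i _ => ?_
      rw [mul_comm]
      rfl) p
  exact Subtype.ext h1

/-- `Φ` induces a homomorphism of the multiplicative group of the algebraic numbers. -/
theorem exists_phi {m : ℕ} (Φ : ℂ →ₗ[ℚ] (Fin m → ℚ)) (h : Φ (2 * Real.pi * Complex.I) = 0) :
    ∃ φ : Qaˣ →* Multiplicative (Fin m → ℚ), ∀ (a : Qaˣ) (l : ℂ),
      Complex.exp l = ((a : Qa) : ℂ) → φ a = Multiplicative.ofAdd (Φ l) := by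
  have key : ∀ l l' : ℂ, Complex.exp l = Complex.exp l' → Φ l = Φ l' := by
    intro l l' hl
    obtain ⟨n, hn⟩ := Complex.exp_eq_exp_iff_exists_int.1 hl
    have h1 : (n : ℂ) * (2 * Real.pi * Complex.I) = (n : ℚ) • (2 * Real.pi * Complex.I : ℂ) := by
      rw [Rat.smul_def]
      push_cast
      rfl
    rw [hn, map_add, h1, map_smul, h, smul_zero, add_zero]
  have hne : ∀ a : Qaˣ, ((a : Qa) : ℂ) ≠ 0 := by
    intro a h0
    exact a.ne_zero (Subtype.ext h0)
  have hlog : ∀ a : Qaˣ, Complex.exp (Complex.log ((a : Qa) : ℂ)) = ((a : Qa) : ℂ) := fun a =>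
    Complex.exp_log (hne a)
  refine ⟨{ toFun := fun a => Multiplicative.ofAdd (Φ (Complex.log ((a : Qa) : ℂ)))
            map_one' := ?_
            map_mul' := ?_ }, ?_⟩
  · have h1 : Complex.log (((1 : Qaˣ) : Qa) : ℂ) = 0 := by
      have h2 : (((1 : Qaˣ) : Qa) : ℂ) = 1 := rfl
      rw [h2, Complex.log_one]
    rw [h1, map_zero]
    rfl
  · intro a b
    have h1 : Complex.exp (Complex.log (((a * b : Qaˣ) : Qa) : ℂ)) =
        Complex.exp (Complex.log ((a : Qa) : ℂ) + Complex.log ((b : Qa) : ℂ)) := by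
      rw [hlog, Complex.exp_add, hlog, hlog]
      rfl
    rw [key _ _ h1, map_add]
    rfl
  · intro a l hl
    show Multiplicative.ofAdd (Φ (Complex.log ((a : Qa) : ℂ))) = _
    rw [key (Complex.log ((a : Qa) : ℂ)) l (by rw [hlog, hl])]

private theorem exp_sum_mul {I : Type} [Fintype I] (w : I → ℂ) (a : I → Qaˣ)
    (hw : ∀ j, Complex.exp (w j) = ((a j : Qa) : ℂ)) (b : I → ℤ) :
    Complex.exp (∑ j, (b j : ℂ) * w j) = (((∏ j, a j ^ b j : Qaˣ) : Qa) : ℂ) := by
  rw [Complex.exp_sum]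
  have h1 : (((∏ j, a j ^ b j : Qaˣ) : Qa) : ℂ) = ∏ j, ((a j : Qa) : ℂ) ^ b j := by
    rw [Units.coe_prod]
    have h2 : ((∏ j, ((a j ^ b j : Qaˣ) : Qa) : Qa) : ℂ) =
        ∏ j, (((a j ^ b j : Qaˣ) : Qa) : ℂ) := map_prod (algebraMap Qa ℂ) _ _
    rw [h2]
    refine Finset.prod_congr rfl fun j _ => ?_
    rw [Units.val_zpow_eq_zpow_val]
    exact map_zpow₀ (algebraMap Qa ℂ) _ _
  rw [h1]
  refine Finset.prod_congr rfl fun j _ => ?_
  rw [← hw j, Complex.exp_int_mul]

/-- Logarithms of multiplicatively independent numbers are linearly independent. -/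
theorem li_of_mult {n : ℕ} (w : Fin n → ℂ) (a : Fin n → Qaˣ)
    (hw : ∀ j, Complex.exp (w j) = ((a j : Qa) : ℂ))
    (ha : ∀ b : Fin n → ℤ, ∏ j, a j ^ b j = 1 → b = 0) : LinearIndependent ℚ w := by
  rw [← LinearIndependent.iff_fractionRing (R := ℤ) (K := ℚ), Fintype.linearIndependent_iff]
  intro b hb
  have h1 : ∏ j, a j ^ b j = 1 := by
    have h2 := exp_sum_mul w a hw b
    have h3 : ∑ j, (b j : ℂ) * w j = 0 := by
      rw [← hb]
      exact Finset.sum_congr rfl fun j _ => (zsmul_eq_mul _ _).symm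
    rw [h3, Complex.exp_zero] at h2
    apply Units.ext
    exact Subtype.ext h2.symm
  exact fun j => congrFun (ha b h1) j

/-- The exceptional space in multiplicative form: a finitely generated group `B`. -/
theorem exists_B {m : ℕ} (Φ : ℂ →ₗ[ℚ] (Fin m → ℚ)) (V : Submodule ℚ ℂ)
    (hfin : FiniteDimensional ℚ V)
    (hV : ∀ v ∈ V, IsAlgebraic ℚ (Complex.exp v) ∧ Φ v = 0) :
    ∃ B : Subgroup Qaˣ, B.FG ∧
      (∀ a ∈ B, ∃ l : ℂ, Complex.exp l = ((a : Qa) : ℂ) ∧ Φ l = 0) ∧
      ∀ (n : ℕ) (w : Fin n → ℂ) (a : Fin n → Qaˣ),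
        (∀ j, Complex.exp (w j) = ((a j : Qa) : ℂ)) →
        (∀ b : Fin n → ℤ, ∏ j, a j ^ b j ∈ B → b = 0) →
        LinearIndependent ℚ w ∧
          Disjoint (Submodule.span Qa (Set.range w)) (Submodule.span Qa (V : Set ℂ)) := by
  classical
  let bV := finBasis ℚ V
  -- the generators
  have hu : ∀ i : Fin (finrank ℚ V), ∃ u : Qaˣ, Complex.exp (bV i : ℂ) = ((u : Qa) : ℂ) := by
    intro i
    have h1 : IsAlgebraic ℚ (Complex.exp (bV i : ℂ)) := (hV _ (bV i).2).1
    have h2 : (⟨Complex.exp (bV i : ℂ), mem_algebraicClosure_iff.mpr h1⟩ : Qa) ≠ 0 := by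
      intro h0
      exact Complex.exp_ne_zero (bV i : ℂ) (congrArg Subtype.val h0)
    exact ⟨Units.mk0 _ h2, rfl⟩
  choose u hu using hu
  refine ⟨Subgroup.closure (Set.range u), ?_, ?_, ?_⟩
  · rw [Subgroup.fg_iff]
    exact ⟨Set.range u, rfl, Set.finite_range u⟩
  · intro a ha
    induction ha using Subgroup.closure_induction with
    | mem x hx =>
      obtain ⟨i, rfl⟩ := hx
      exact ⟨(bV i : ℂ), hu i, (hV _ (bV i).2).2⟩
    | one => exact ⟨0, by rw [Complex.exp_zero]; rfl, map_zero Φ⟩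
    | mul x y _ _ hx hy =>
      obtain ⟨l, hl, hl'⟩ := hx
      obtain ⟨k, hk, hk'⟩ := hy
      refine ⟨l + k, ?_, by rw [map_add, hl', hk', add_zero]⟩
      rw [Complex.exp_add, hl, hk]
      rfl
    | inv x _ hx =>
      obtain ⟨l, hl, hl'⟩ := hx
      refine ⟨-l, ?_, by rw [map_neg, hl', neg_zero]⟩
      rw [Complex.exp_neg, hl, Units.val_inv_eq_inv_val]
      rfl
  · intro n w a hw hab
    -- the whole family is independent
    have hall : LinearIndependent ℚ (Sum.elim w fun i : Fin (finrank ℚ V) => (bV i : ℂ)) := by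
      rw [← LinearIndependent.iff_fractionRing (R := ℤ) (K := ℚ), Fintype.linearIndependent_iff]
      intro b hb
      rw [Fintype.sum_sum_type] at hb
      simp only [Sum.elim_inl, Sum.elim_inr] at hb
      have h1 : ∏ j, a j ^ b (Sum.inl j) = (∏ i, u i ^ b (Sum.inr i))⁻¹ := by
        apply Units.ext
        apply Subtype.ext
        have h2 := exp_sum_mul w a hw fun j => b (Sum.inl j)
        have h3 := exp_sum_mul (fun i => (bV i : ℂ)) u hu fun i => b (Sum.inr i)
        have h4 : ∑ j, (b (Sum.inl j) : ℂ) * w j = -∑ i, (b (Sum.inr i) : ℂ) * (bV i : ℂ) := by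
          rw [eq_neg_iff_add_eq_zero, ← hb]
          simp only [zsmul_eq_mul]
        rw [h4, Complex.exp_neg, h3] at h2
        rw [Units.val_inv_eq_inv_val]
        exact h2.symm
      have h5 : ∏ j, a j ^ b (Sum.inl j) ∈ Subgroup.closure (Set.range u) := by
        rw [h1]
        refine Subgroup.inv_mem _ (Subgroup.prod_mem _ fun i _ => Subgroup.zpow_mem _ ?_ _)
        exact Subgroup.subset_closure ⟨i, rfl⟩
      have h6 := hab _ h5
      have h7 : ∀ j, b (Sum.inl j) = 0 := fun j => congrFun h6 j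
      simp only [h7, zero_smul, Finset.sum_const_zero, zero_add] at hb
      have h8 : LinearIndependent ℚ fun i : Fin (finrank ℚ V) => (bV i : ℂ) :=
        bV.linearIndependent.map' V.subtype (Submodule.ker_subtype V)
      rw [← LinearIndependent.iff_fractionRing (R := ℤ) (K := ℚ),
        Fintype.linearIndependent_iff] at h8
      have h9 := h8 (fun i => b (Sum.inr i)) hb
      rintro (j | i)
      · exact h7 j
      · exact h9 i
    have halg : ∀ s, IsAlgebraic ℚ (Complex.exp
        (Sum.elim w (fun i : Fin (finrank ℚ V) => (bV i : ℂ)) s)) := by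
      rintro (j | i)
      · rw [Sum.elim_inl, hw]
        exact mem_algebraicClosure_iff.mp (a j : Qa).2
      · exact (hV _ (bV i).2).1
    have hQ := bakerFin _ halg hall
    refine ⟨hall.comp Sum.inl Sum.inl_injective, ?_⟩
    have h1 : Disjoint (Submodule.span Qa (Set.range w))
        (Submodule.span Qa (Set.range fun i : Fin (finrank ℚ V) => (bV i : ℂ))) := by
      have h2 := (linearIndependent_sum.1 hQ).2.2
      exact h2
    refine h1.mono_right ?_
    rw [Submodule.span_le]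
    intro v hv
    have h2 := congrArg V.subtype (bV.sum_repr ⟨v, hv⟩)
    rw [map_sum] at h2
    simp only [map_smul, Submodule.subtype_apply] at h2
    rw [← h2]
    refine Submodule.sum_mem _ fun i _ => ?_
    have h3 : (bV.repr ⟨v, hv⟩ i) • ((bV i : V) : ℂ) =
        ((bV.repr ⟨v, hv⟩ i : ℚ) : Qa) • ((bV i : V) : ℂ) := by
      rw [Rat.smul_def, Algebra.smul_def]
      congr 1
    rw [h3]
    exact Submodule.smul_mem _ _ (Submodule.subset_span ⟨i, rfl⟩)

end MP60829e.FZ
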