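import Pool.Agent.Lib.MP_60829e_nt.FR.Main
import Pool.Agent.Lib.MP_60829e_nt.FL.Desc

/-! # Arbitrary tuples for values in `Lt`, and the base of the recursion with `2 π i` -/

open MvPolynomial Module

namespace MP60829e.FZ

open MP60829e.ST (Qa Lsp Lt)
open MP60829e.FC (Xr Gen)
open MP60829e.FQ (GoodP pw)
open MP60829e.FL (GoodL)
open MP60829e.FR (PT za kp Rels)

/-- A polynomial with coefficients in `Qa`, multiplied by an element of `A`, has coefficients in
`A`. -/
theorem smul_eqZ (c : Qa) (z : ℂ) : c • z = (c : ℂ) * z := rfl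

theorem exists_map {σ : Type} (P : MvPolynomial σ ℂ) (hP : ∀ a, IsAlgebraic ℚ (coeff a P)) :
    ∃ Q : MvPolynomial σ Qa, MvPolynomial.map (algebraMap Qa ℂ) Q = P := by
  classical
  refine ⟨∑ a ∈ P.support, monomial a (⟨coeff a P, mem_algebraicClosure_iff.2 (hP a)⟩ : Qa), ?_⟩
  rw [map_sum]
  conv_rhs => rw [P.as_sum]
  refine Finset.sum_congr rfl fun a _ => ?_
  rw [map_monomial]
  rfl

theorem coeff_map_alg {σ : Type} (Q : MvPolynomial σ Qa) (a : σ →₀ ℕ) :
    IsAlgebraic ℚ (coeff a (MvPolynomial.map (algebraMap Qa ℂ) Q)) := by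
  rw [coeff_map]
  exact mem_algebraicClosure_iff.1 (coeff a Q).2

/-- The substitutions `PT` preserve polynomials with algebraic coefficients. -/
theorem PT_alg {N n n' : ℕ} (ι : Fin n' ↪ Fin n) (P : MvPolynomial (Fin N ⊕ Fin n) ℂ)
    (hP : ∀ a, IsAlgebraic ℚ (coeff a P)) : ∀ a, IsAlgebraic ℚ (coeff a (PT ι P)) := by
  classical
  obtain ⟨Q, rfl⟩ := exists_map P hP
  intro a
  have h1 : ∃ R : MvPolynomial (Fin (N + kp ι) ⊕ Fin n') Qa,
      MvPolynomial.map (algebraMap Qa ℂ) R = PT ι (MvPolynomial.map (algebraMap Qa ℂ) Q) := by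
    unfold PT
    generalize hf : (Sum.elim (fun l => X (Sum.inl (Fin.castAdd _ l)))
      (fun i => if h : i ∈ (Set.range ι)ᶜ then
          ∑ j, X (Sum.inl (Fin.natAdd N (FR.ep ι (⟨i, h⟩, j)))) * X (Sum.inr j)
        else X (Sum.inr (Classical.choose (Set.mem_range.1 (Set.notMem_compl_iff.1 h))))) :
          Fin N ⊕ Fin n → MvPolynomial (Fin (N + kp ι) ⊕ Fin n') ℂ) = f
    have hf' : ∀ s, ∃ g : MvPolynomial (Fin (N + kp ι) ⊕ Fin n') Qa,
        MvPolynomial.map (algebraMap Qa ℂ) g = f s := by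
      intro s
      rw [← hf]
      rcases s with l | i
      · exact ⟨X (Sum.inl (Fin.castAdd _ l)), by rw [map_X]; rfl⟩
      · simp only [Sum.elim_inr]
        split_ifs with h
        · exact ⟨∑ j, X (Sum.inl (Fin.natAdd N (FR.ep ι (⟨i, h⟩, j)))) * X (Sum.inr j), by
            rw [map_sum]
            refine Finset.sum_congr rfl fun j _ => ?_
            rw [map_mul, map_X, map_X]⟩
        · exact ⟨X (Sum.inr (Classical.choose (Set.mem_range.1 (Set.notMem_compl_iff.1 h)))), by
            rw [map_X]⟩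
    choose g hg using hf'
    refine ⟨aeval g Q, ?_⟩
    induction Q using MvPolynomial.induction_on with
    | C a =>
      rw [map_C, algHom_C, algHom_C, MvPolynomial.algebraMap_eq, MvPolynomial.algebraMap_eq, map_C]
    | add p q hp hq =>
      rw [map_add, map_add, map_add, map_add, hp fun a => coeff_map_alg p a,
        hq fun a => coeff_map_alg q a]
    | mul_X p i hp =>
      rw [map_mul, map_mul, map_mul, map_mul, hp fun a => coeff_map_alg p a, aeval_X, map_X,
        aeval_X, hg]
  obtain ⟨R, hR⟩ := h1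
  rw [← hR]
  exact coeff_map_alg R a

/-- From independent to arbitrary tuples, for values in `Lt`. -/
theorem depL_main {N n : ℕ} {A : Submodule Qa ℂ} {P : MvPolynomial (Fin N ⊕ Fin n) ℂ}
    {X V : Submodule Qa ℂ} (h : ∀ (n' : ℕ) (ι : Fin n' ↪ Fin n), GoodL A (PT ι P) X V)
    (z : Fin N → Qa) (w : Fin n → ℂ) (hw : ∀ j, w j ∈ X)
    (hd : Disjoint (Submodule.span Qa (Set.range w)) V)
    (hdA : Disjoint (Submodule.span Qa (Set.range w)) A)
    (h0 : eval (Sum.elim (fun l => (z l : ℂ)) w) P ∈ Lt) :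
    ∃ a ∈ A, ∃ α : Fin n → Qa, ∀ x : Fin n → ℂ, Rels w x →
      eval (Sum.elim (fun l => (z l : ℂ)) x) P = a + ∑ j, (α j : ℂ) * x j := by
  classical
  obtain ⟨n', ι, B, hli, hB⟩ := FR.exists_basis w
  have hle : Submodule.span Qa (Set.range fun j => w (ι j)) ≤
      Submodule.span Qa (Set.range w) := by
    refine Submodule.span_mono ?_
    rintro _ ⟨j, rfl⟩
    exact ⟨ι j, rfl⟩
  rw [← FR.eval_PT ι P z B w (hB w fun q hq => hq)] at h0
  obtain ⟨a, ha, α, hα⟩ := FL.goodL_main (h n' ι) (za ι z B) (fun j => w (ι j)) (fun j => hw _) hli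
    (hd.mono_left hle) (hdA.mono_left hle) h0
  refine ⟨a, ha, Function.extend ι α 0, fun x hx => ?_⟩
  rw [← FR.eval_PT ι P z B x (hB x hx), hα]
  congr 1
  rw [← Finset.sum_subset (Finset.subset_univ (Finset.univ.map ι))]
  · rw [Finset.sum_map]
    refine Finset.sum_congr rfl fun j _ => ?_
    rw [ι.injective.extend_apply]
  · intro i _ hi
    rw [Function.extend_apply', Pi.zero_apply, ZeroMemClass.coe_zero, zero_mul]
    rintro ⟨j, rfl⟩
    exact hi (Finset.mem_map.2 ⟨j, Finset.mem_univ _, rfl⟩)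

/-- Substitution of one-variable polynomials over `Qa`. -/
theorem eval_sub {σ : Type} (Q : MvPolynomial σ Qa) (f : σ → Polynomial Qa) (u : ℂ) :
    eval (fun s => Polynomial.aeval u (f s)) (MvPolynomial.map (algebraMap Qa ℂ) Q) =
      Polynomial.aeval u (aeval f Q) := by
  induction Q using MvPolynomial.induction_on with
  | C a => rw [map_C, eval_C, algHom_C, Polynomial.algebraMap_eq, Polynomial.aeval_C]
  | add p q hp hq => rw [map_add, map_add, map_add, map_add, hp, hq]
  | mul_X p i hp => rw [map_mul, map_mul, map_mul, map_mul, hp, map_X, eval_X, aeval_X]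

/-- The base of the recursion for polynomials with algebraic coefficients. -/
theorem goodP_pi {N n m : ℕ} (lam : ℕ → ℂ) (hlam : ¬ IsAlgebraic ℚ (lam 0))
    (x : ℕ → Fin m → ℚ) (P : MvPolynomial (Fin N ⊕ Fin n) ℂ)
    (hP : ∀ a, IsAlgebraic ℚ (coeff a P)) : GoodP P (Xr lam x 1) ⊥ := by
  classical
  intro n' ι z c _ w hw hli _ h0 v
  have hw' : ∀ i, ∃ q : Qa, w i = q • lam 0 := by
    intro i
    obtain ⟨cc, -, h⟩ := FC.mem_Xr.1 (hw i)
    refine ⟨cc 0, ?_⟩
    rw [h, Fin.sum_univ_succ]
    simp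
  choose q hq using hw'
  have hq0 : ∀ i, q i ≠ 0 := by
    intro i hi
    refine hli.ne_zero i ?_
    rw [hq, hi, zero_smul]
  match n', ι, w, hw, hli, h0, v, q, hq, hq0 with
  | 0, ι, w, hw, hli, h0, v, q, hq, hq0 =>
    rw [Subsingleton.elim v w]
    exact h0
  | 1, ι, w, hw, hli, h0, v, q, hq, hq0 =>
    obtain ⟨Q, rfl⟩ := exists_map P hP
    obtain ⟨f, hf⟩ : ∃ f : Fin N ⊕ Fin n → Polynomial Qa, f = Sum.elim
        (fun l => Polynomial.C (z l))
        (fun i => Polynomial.C (c i) + Function.extend ι (fun _ => Polynomial.X) 0 i) := ⟨_, rfl⟩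
    have key : ∀ u : Fin 1 → ℂ, eval (pw z c ι u) (MvPolynomial.map (algebraMap Qa ℂ) Q) =
        Polynomial.aeval (u 0) (aeval f Q) := by
      intro u
      have hs : ∀ s, Polynomial.aeval (u 0) (f s) = pw z c ι u s := by
        intro s
        rw [hf]
        unfold pw
        rcases s with l | i
        · rw [Sum.elim_inl, Sum.elim_inl, Polynomial.aeval_C]
          rfl
        · rw [Sum.elim_inr, Sum.elim_inr, map_add, Polynomial.aeval_C]
          congr 1
          by_cases hi : ∃ j, ι j = i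
          · obtain ⟨j, rfl⟩ := hi
            rw [ι.injective.extend_apply, ι.injective.extend_apply, Polynomial.aeval_X,
              Subsingleton.elim j 0]
          · rw [Function.extend_apply' _ _ _ hi, Function.extend_apply' _ _ _ hi, Pi.zero_apply,
              Pi.zero_apply, map_zero]
      rw [← eval_sub]
      congr 2
      exact (funext hs).symm
    have h1 : aeval f Q = 0 := by
      by_contra hne
      have h2 : IsAlgebraic Qa (w 0) := ⟨_, hne, by rw [← key]; exact h0⟩
      have hia : Algebra.IsAlgebraic ℚ Qa := algebraicClosure.isAlgebraic ℚ ℂ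
      have h3 : IsAlgebraic ℚ (w 0) := h2.restrictScalars ℚ
      rw [hq, smul_eqZ] at h3
      refine hlam ?_
      have h4 : IsAlgebraic ℚ ((q 0 : ℂ)⁻¹) := (mem_algebraicClosure_iff.1 (q 0).2).inv
      have h5 := h4.mul h3
      rwa [← mul_assoc, inv_mul_cancel₀, one_mul] at h5
      intro h6
      exact hq0 0 (Subtype.ext h6)
    rw [key, h1, map_zero]
  | k + 2, ι, w, hw, hli, h0, v, q, hq, hq0 =>
    exfalso
    have h1 := (Fintype.linearIndependent_iff.1 hli)
      (fun i => if i = 0 then q 1 else if i = 1 then - q 0 else 0) (by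
        simp only [ite_smul, neg_smul, zero_smul]
        rw [Finset.sum_ite, Finset.sum_ite, Finset.sum_const_zero, add_zero]
        have e1 : (Finset.univ.filter fun i : Fin (k + 2) => i = 0) = {0} := by
          ext; simp
        have e2 : (Finset.filter (fun i : Fin (k + 2) => i = 1)
            (Finset.univ.filter fun i : Fin (k + 2) => ¬ i = 0)) = {1} := by
          ext i
          simp only [Finset.mem_filter, Finset.mem_univ, true_and, Finset.mem_singleton]
          constructor
          · exact fun h => h.2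
          · rintro rfl
            exact ⟨by simp, rfl⟩
        rw [e1, e2, Finset.sum_singleton, Finset.sum_singleton, hq 0, hq 1, smul_smul, smul_smul,
          mul_comm, add_neg_cancel]) 0
    rw [if_pos rfl] at h1
    exact hq0 1 h1

end MP60829e.FZ
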