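import Pool.Agent.Lib.MP_60829e_nt.FC.Basis

/-! # A rational basis of the space of the logarithms which starts with `2 π i` -/

open Module

namespace MP60829e.FZ

open MP60829e.ST (Qa Lsp Lt)

theorem two_pi_I_alg : IsAlgebraic ℚ (Complex.exp (2 * Real.pi * Complex.I)) := by
  rw [Complex.exp_two_pi_mul_I]
  exact isAlgebraic_one

/-- PROOF. Extend `2 π i` to a `ℚ`-basis of the space of the logarithms, which is countable and
infinite; number it such that `2 π i` has the number `0`. -/
theorem exists_lam0 : ∃ lam : ℕ → ℂ, lam 0 = 2 * Real.pi * Complex.I ∧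
    (∀ j, IsAlgebraic ℚ (Complex.exp (lam j))) ∧ LinearIndependent ℚ lam ∧
      ∀ z : ℂ, IsAlgebraic ℚ (Complex.exp z) → z ∈ Submodule.span ℚ (Set.range lam) := by
  classical
  obtain ⟨mu, hmu, hmuli, hmuspan⟩ := FC.exists_lam
  let v : SE.Lg := ⟨2 * Real.pi * Complex.I, two_pi_I_alg⟩
  have hv0 : v ≠ 0 := by
    intro h
    have h1 : (2 * Real.pi * Complex.I : ℂ) = 0 := congrArg Subtype.val h
    exact Complex.two_pi_I_ne_zero h1
  have hs : LinearIndepOn ℚ id ({v} : Set SE.Lg) := LinearIndepOn.singleton (v := id) hv0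
  let b := Basis.extend hs
  have hcL : Countable SE.Lg := by
    have h1 : (Submodule.span ℚ (Set.range mu) : Set ℂ).Countable := by
      have h2 : Countable (Submodule.span ℚ (Set.range mu)) :=
        (Basis.span hmuli).repr.toEquiv.injective.countable
      exact h2
    have h3 : {z : ℂ | IsAlgebraic ℚ (Complex.exp z)}.Countable :=
      h1.mono fun z hz => hmuspan z hz
    exact h3.to_subtype
  have hc2 : Countable (hs.extend (Set.subset_univ {v})) := inferInstance
  have hinf : Infinite (hs.extend (Set.subset_univ {v})) := by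
    by_contra hfin
    rw [not_infinite_iff_finite] at hfin
    have hM : Module.Finite ℚ SE.Lg := Module.Finite.of_basis b
    have h1 : LinearIndependent ℚ (fun j : ℕ => (⟨mu j, hmu j⟩ : SE.Lg)) := by
      apply LinearIndependent.of_comp SE.Lg.subtype
      exact hmuli
    have h2 : Finite ℕ := h1.finite_of_isNoetherian
    exact not_finite ℕ
  obtain ⟨hd⟩ := nonempty_denumerable (hs.extend (Set.subset_univ {v}))
  have hmem : v ∈ hs.extend (Set.subset_univ {v}) :=
    hs.subset_extend (Set.subset_univ {v}) rfl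
  let e0 : hs.extend (Set.subset_univ {v}) ≃ ℕ := Denumerable.eqv _
  let e : hs.extend (Set.subset_univ {v}) ≃ ℕ :=
    e0.trans (Equiv.swap (e0 ⟨v, hmem⟩) 0)
  have he : e.symm 0 = ⟨v, hmem⟩ := by
    rw [Equiv.symm_apply_eq]
    simp [e]
  let b' : Basis ℕ ℚ SE.Lg := b.reindex e
  refine ⟨fun j => (b' j : ℂ), ?_, fun j => (b' j).2, ?_, ?_⟩
  · have h1 : b' 0 = v := by
      simp only [b', Basis.reindex_apply, he]
      exact Basis.extend_apply_self hs ⟨v, hmem⟩
    show ((b' 0 : SE.Lg) : ℂ) = _
    rw [h1]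
  · exact b'.linearIndependent.map' SE.Lg.subtype (Submodule.ker_subtype _)
  · intro z hz
    have h1 : (⟨z, hz⟩ : SE.Lg) ∈ Submodule.span ℚ (Set.range b') := by
      rw [b'.span_eq]
      trivial
    have h2 := Submodule.mem_map_of_mem (f := SE.Lg.subtype) h1
    rw [Submodule.map_span, ← Set.range_comp] at h2
    exact h2

end MP60829e.FZ
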