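import Pool.Agent.Lib.MP_60829e_nt.FZ.Main
import Pool.Agent.Lib.MP_60829e_nt.FZ.Lam

/-! # The final form, first part: parametrized families -/

open MvPolynomial Module

namespace MP60829e.FZ

open MP60829e.ST (Qa Lsp Lt)
open MP60829e.FC (Xr Gen)
open MP60829e.FQ (XQ)
open MP60829e.FR (Rels)

/-- The linear relations written with algebraic complex numbers. -/
theorem rels_of {n : ℕ} {w x : Fin n → ℂ} (h : ∀ q : Fin n → ℂ, (∀ j, IsAlgebraic ℚ (q j)) →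
    ∑ j, q j * w j = 0 → ∑ j, q j * x j = 0) : Rels w x := by
  intro q hq
  exact h (fun j => (q j : ℂ)) (fun j => mem_algebraicClosure_iff.1 (q j).2) hq

theorem rels_to {n : ℕ} {w x : Fin n → ℂ} (h : Rels w x) (q : Fin n → ℂ)
    (hq : ∀ j, IsAlgebraic ℚ (q j)) (h0 : ∑ j, q j * w j = 0) : ∑ j, q j * x j = 0 :=
  h (fun j => ⟨q j, mem_algebraicClosure_iff.2 (hq j)⟩) h0

/-- Parametrized families of any degree. -/
theorem partI (n N m : ℕ) (hm : N + n * (n + 2) + 1 ≤ m)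
    (P : ℕ → MvPolynomial (Fin N ⊕ Fin n) ℂ) :
    ∃ (Φ : ℂ →ₗ[ℚ] (Fin m → ℚ)) (F : Submodule ℚ ℂ) (V : ℕ → Submodule ℚ ℂ),
      (∀ l : ℂ, l ∈ F ↔ IsAlgebraic ℚ (Complex.exp l) ∧ Φ l = 0) ∧
      2 * Real.pi * Complex.I ∈ F ∧
      V 0 = Submodule.span ℚ {2 * Real.pi * Complex.I} ∧ Monotone V ∧
      (∀ i, V i ≤ F ∧ FiniteDimensional ℚ (V i)) ∧
      ∀ (z : Fin N → ℂ) (w : Fin n → ℂ), (∀ l, IsAlgebraic ℚ (z l)) →
        (∀ j, w j ∈ Submodule.span (algebraicClosure ℚ ℂ) (F : Set ℂ)) →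
        ((∀ a, IsAlgebraic ℚ (coeff a (P 0))) → eval (Sum.elim z w) (P 0) = 0 →
          ∀ x : Fin n → ℂ, (∀ q : Fin n → ℂ, (∀ j, IsAlgebraic ℚ (q j)) →
            ∑ j, q j * w j = 0 → ∑ j, q j * x j = 0) → eval (Sum.elim z x) (P 0) = 0) ∧
        ∀ i, Disjoint (Submodule.span (algebraicClosure ℚ ℂ) (Set.range w))
            (Submodule.span (algebraicClosure ℚ ℂ) (V i : Set ℂ)) →
          (eval (Sum.elim z w) (P i) = 0 →
            ∀ x : Fin n → ℂ, (∀ q : Fin n → ℂ, (∀ j, IsAlgebraic ℚ (q j)) →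
              ∑ j, q j * w j = 0 → ∑ j, q j * x j = 0) → eval (Sum.elim z x) (P i) = 0) ∧
          (N + (n + 2) ^ 2 ≤ m → (∀ a, IsAlgebraic ℚ (coeff a (P i))) →
            eval (Sum.elim z w) (P i) ∈ Submodule.span (algebraicClosure ℚ ℂ)
              ({1} ∪ {l : ℂ | IsAlgebraic ℚ (Complex.exp l)}) →
            ∃ (b : ℂ) (a : Fin n → ℂ), IsAlgebraic ℚ b ∧ (∀ j, IsAlgebraic ℚ (a j)) ∧
              ∀ x : Fin n → ℂ, (∀ q : Fin n → ℂ, (∀ j, IsAlgebraic ℚ (q j)) →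
                ∑ j, q j * w j = 0 → ∑ j, q j * x j = 0) →
                eval (Sum.elim z x) (P i) = b + ∑ j, a j * x j) := by
  classical
  obtain ⟨lam, hlam0, halg, hli, hspan⟩ := exists_lam0
  obtain ⟨x, Φ, hΦ, hx0, hmain⟩ := main_gen n N m hm P lam halg hli hspan
  have hF : ∀ l : ℂ, l ∈ SE.Lg ⊓ LinearMap.ker Φ ↔ IsAlgebraic ℚ (Complex.exp l) ∧ Φ l = 0 := by
    intro l
    rw [Submodule.mem_inf, LinearMap.mem_ker]
    rfl
  have hFs : ((SE.Lg ⊓ LinearMap.ker Φ : Submodule ℚ ℂ) : Set ℂ) =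
      {l : ℂ | IsAlgebraic ℚ (Complex.exp l) ∧ Φ l = 0} := by
    ext l
    exact hF l
  refine ⟨Φ, SE.Lg ⊓ LinearMap.ker Φ, fun i => XQ lam x (i + 1), hF, ?_, ?_, ?_, ?_, ?_⟩
  · rw [hF]
    refine ⟨?_, ?_⟩
    · rw [← hlam0]
      exact halg 0
    · rw [← hlam0, hΦ, hx0]
  · refine le_antisymm ?_ ?_
    · rintro _ ⟨c, -, rfl⟩
      rw [Fin.sum_univ_succ, Finset.univ_eq_empty, Finset.sum_empty, add_zero, ← Rat.smul_def]
      exact Submodule.smul_mem _ _ (Submodule.subset_span hlam0)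
    · rw [Submodule.span_singleton_le_iff_mem]
      refine ⟨fun _ => 1, fun s => ?_, ?_⟩
      · rw [Fin.sum_univ_succ, Finset.univ_eq_empty, Finset.sum_empty, add_zero]
        have : x ((0 : Fin 1) : ℕ) = 0 := hx0
        rw [this]
        simp
      · rw [Fin.sum_univ_succ, Finset.univ_eq_empty, Finset.sum_empty, add_zero]
        have : lam ((0 : Fin 1) : ℕ) = 2 * Real.pi * Complex.I := hlam0
        rw [this]
        simp
  · exact fun i j hij => FQ.XQ_mono lam x (Nat.add_le_add_right hij 1)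
  · intro i
    exact ⟨fun v hv => (hF v).2 (FQ.XQ_sub lam halg x Φ hΦ (i + 1) v hv),
      FQ.finite_XQ lam x (i + 1)⟩
  · intro z w hz hw
    obtain ⟨z', rfl⟩ : ∃ z' : Fin N → Qa, z = fun l => (z' l : ℂ) :=
      ⟨fun l => ⟨z l, mem_algebraicClosure_iff.2 (hz l)⟩, rfl⟩
    rw [hFs] at hw
    obtain ⟨h1, h2⟩ := hmain z' w hw
    refine ⟨fun hP h0 v hv => h1 hP h0 v (rels_of hv), fun i hd => ?_⟩
    obtain ⟨h3, h4⟩ := h2 i (hd.mono_right (FQ.Xr_le_span lam x (i + 1)))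
    refine ⟨fun h0 v hv => h3 h0 v (rels_of hv), fun hm2 hP h0 => ?_⟩
    obtain ⟨b, a, hab⟩ := h4 hP hm2 h0
    exact ⟨b, fun j => a j, mem_algebraicClosure_iff.1 b.2,
      fun j => mem_algebraicClosure_iff.1 (a j).2, fun v hv => hab v (rels_of hv)⟩

end MP60829e.FZ
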