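import Pool.Agent.Lib.MP_60829e_nt.FQ.Defs
import Pool.Agent.Lib.MP_60829e_nt.FZ.Lam
import Pool.Agent.Lib.MP_60829e_nt.HL

/-! # The base case `X = Qa · 2 π i`, `V = ⊥` for algebraic coefficients (Lindemann) -/

open MvPolynomial Module

namespace MP60829e.FZ

open MP60829e.ST (Qa Lsp Lt)
open MP60829e.FC (Xr Gen)
open MP60829e.FQ (pw GoodP)

/-- A nonzero algebraic multiple of `2 π i` is transcendental. -/
theorem mul_two_pi_I_not_alg {q : Qa} (hq : q ≠ 0) :
    ¬ IsAlgebraic ℚ (q • (2 * Real.pi * Complex.I : ℂ)) := by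
  intro h
  have hq' : (q : ℂ) ≠ 0 := by
    intro h0
    exact hq (Subtype.ext h0)
  have h1 : IsAlgebraic ℚ (q : ℂ) := mem_algebraicClosure_iff.mp q.2
  have h2 : IsAlgebraic ℚ (2 * Real.pi * Complex.I : ℂ) := by
    have h3 := h1.inv.mul h
    have h4 : ((q : ℂ)⁻¹ * (q • (2 * Real.pi * Complex.I : ℂ))) = 2 * Real.pi * Complex.I := by
      have h5 : q • (2 * Real.pi * Complex.I : ℂ) = (q : ℂ) * (2 * Real.pi * Complex.I) := rfl
      rw [h5, ← mul_assoc, inv_mul_cancel₀ hq', one_mul]
    rwa [h4] at h3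
  exact hermite_lindemann Complex.two_pi_I_ne_zero h2 two_pi_I_alg

/-- A polynomial with algebraic coefficients comes from `Qa`. -/
theorem exists_map {σ : Type*} (P : MvPolynomial σ ℂ) (h : ∀ a, IsAlgebraic ℚ (coeff a P)) :
    ∃ P0 : MvPolynomial σ Qa, P = map (algebraMap Qa ℂ) P0 := by
  have h1 : P ∈ Set.range (map (σ := σ) (algebraMap Qa ℂ)) := by
    rw [mem_range_map_iff_coeffs_subset]
    intro z hz
    obtain ⟨a, -, rfl⟩ := mem_coeffs_iff.1 hz
    exact ⟨⟨coeff a P, mem_algebraicClosure_iff.mpr (h a)⟩, rfl⟩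
  obtain ⟨P0, hP0⟩ := h1
  exact ⟨P0, hP0.symm⟩

/-- PROOF. The space has dimension one, so `n' ≤ 1`; for `n' = 0` there is nothing to prove, for
`n' = 1` the value is a polynomial over `Qa` in a transcendental number (Lindemann). -/
theorem goodP_line {N n : ℕ} (P : MvPolynomial (Fin N ⊕ Fin n) ℂ)
    (hP : ∀ a, IsAlgebraic ℚ (coeff a P)) (X : Submodule Qa ℂ)
    (hX : X ≤ Submodule.span Qa {(2 * Real.pi * Complex.I : ℂ)}) (V : Submodule Qa ℂ) :
    GoodP P X V := by
  classical
  obtain ⟨P0, rfl⟩ := exists_map P hP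
  intro n' ι z c _ w hw hli _ h0 v
  -- the dimension
  have hn' : n' ≤ 1 := by
    have h1 : finrank Qa (Submodule.span Qa (Set.range w)) = n' := by
      rw [finrank_span_eq_card hli, Fintype.card_fin]
    have h2 : Submodule.span Qa (Set.range w) ≤
        Submodule.span Qa {(2 * Real.pi * Complex.I : ℂ)} := by
      rw [Submodule.span_le]
      rintro _ ⟨j, rfl⟩
      exact hX (hw j)
    have h3 : finrank Qa (Submodule.span Qa {(2 * Real.pi * Complex.I : ℂ)}) ≤ 1 :=
      (finrank_span_le_card _).trans (by simp)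
    have h4 := Submodule.finrank_mono h2
    omega
  rcases Nat.le_one_iff_eq_zero_or_eq_one.1 hn' with rfl | rfl
  · have : v = w := Subsingleton.elim _ _
    rw [this]
    exact h0
  · -- the polynomial in one variable
    let f : Polynomial Qa := aeval (Sum.elim (fun l => Polynomial.C (z l))
      (fun i => Polynomial.C (c i) + Function.extend ι (fun _ : Fin 1 => (Polynomial.X : Polynomial Qa)) 0 i)) P0
    have hf : ∀ u : Fin 1 → ℂ, eval (pw z c ι u) (map (algebraMap Qa ℂ) P0) =
        Polynomial.aeval (u 0) f := by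
      intro u
      have h1 : Polynomial.aeval (u 0) f = aeval (fun s => Polynomial.aeval (u 0)
          ((Sum.elim (fun l => Polynomial.C (z l)) (fun i => Polynomial.C (c i) +
            Function.extend ι (fun _ : Fin 1 => (Polynomial.X : Polynomial Qa)) 0 i) :
              Fin N ⊕ Fin n → Polynomial Qa) s)) P0 := by
        have h2 := comp_aeval_apply (f := (Sum.elim (fun l => Polynomial.C (z l))
          (fun i => Polynomial.C (c i) +
            Function.extend ι (fun _ : Fin 1 => (Polynomial.X : Polynomial Qa)) 0 i) :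
              Fin N ⊕ Fin n → Polynomial Qa)) (Polynomial.aeval (R := Qa) (u 0)) P0
        exact h2
      rw [h1, eval_map]
      show _ = aeval _ P0
      rw [aeval_def]
      congr 1
      funext s
      rcases s with l | i
      · simp [pw]
      · simp only [pw, Sum.elim_inr, map_add, Polynomial.aeval_C]
        congr 1
        by_cases hi : ∃ j, ι j = i
        · obtain ⟨j, rfl⟩ := hi
          rw [ι.injective.extend_apply, ι.injective.extend_apply, Polynomial.aeval_X,
            Subsingleton.elim j 0]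
        · rw [Function.extend_apply' _ _ _ hi, Function.extend_apply' _ _ _ hi]
          simp
    rw [hf] at h0 ⊢
    obtain ⟨q, hq⟩ := Submodule.mem_span_singleton.1 (hX (hw 0))
    have hq0 : q ≠ 0 := by
      rintro rfl
      exact hli.ne_zero 0 (by rw [← hq, zero_smul])
    have hf0 : f = 0 := by
      by_contra hne
      have h1 : IsAlgebraic Qa (w 0) := ⟨f, hne, h0⟩
      have hQa : Algebra.IsAlgebraic ℚ Qa := algebraicClosure.isAlgebraic ℚ ℂ
      have h2 : IsAlgebraic ℚ (w 0) := h1.restrictScalars ℚ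
      rw [← hq] at h2
      exact mul_two_pi_I_not_alg hq0 h2
    rw [hf0, map_zero]

end MP60829e.FZ
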