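import Pool.Agent.Lib.MP_60829e_nt.FZ.RecS
import Pool.Agent.Lib.MP_60829e_nt.FZ.Dep
import Pool.Agent.Lib.MP_60829e_nt.FL.Dep
import Pool.Agent.Lib.MP_60829e_nt.FQ.Final
import Pool.Agent.Lib.MP_60829e_nt.MFinal

/-! # The final form of the theorem, for a given basis of the logarithms -/

open MvPolynomial Module

namespace MP60829e.FZ

open MP60829e.ST (Qa Lsp Lt)
open MP60829e.FC (Xr Gen)
open MP60829e.FQ (GoodP pw XQ)
open MP60829e.FL (GoodL)
open MP60829e.FR (PT za kp Rels)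

/-- The algebraic numbers as a `Qa`-subspace of the complex numbers. -/
noncomputable def A0 : Submodule Qa ℂ := Submodule.span Qa {1}

theorem mem_A0 {z : ℂ} : z ∈ A0 ↔ IsAlgebraic ℚ z := by
  unfold A0
  rw [Submodule.mem_span_singleton]
  constructor
  · rintro ⟨c, rfl⟩
    have h : c • (1 : ℂ) = (c : ℂ) := by
      change (c : ℂ) * 1 = c
      rw [mul_one]
    rw [h]
    exact mem_algebraicClosure_iff.1 c.2
  · intro h
    refine ⟨⟨z, mem_algebraicClosure_iff.2 h⟩, ?_⟩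
    change z * 1 = z
    rw [mul_one]

theorem disjoint_A0 {n : ℕ} (w : Fin n → ℂ) (hw : ∀ j, w j ∈ Lsp) :
    Disjoint (Submodule.span Qa (Set.range w)) A0 := by
  rw [Submodule.disjoint_def]
  intro z hz hz'
  by_contra hne
  unfold A0 at hz'
  obtain ⟨c, rfl⟩ := Submodule.mem_span_singleton.1 hz'
  have hc : c ≠ 0 := by
    rintro rfl
    exact hne (zero_smul _ _)
  have h1 : (1 : ℂ) ∈ Lsp := by
    have h2 : c • (1 : ℂ) ∈ Lsp := (Submodule.span_le.2 (by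
      rintro _ ⟨j, rfl⟩
      exact hw j) : Submodule.span Qa (Set.range w) ≤ Lsp) hz
    have h3 := Lsp.smul_mem c⁻¹ h2
    rwa [smul_smul, inv_mul_cancel₀ hc, one_smul] at h3
  exact Pool.Agent.Lib.MP_60829e_nt.ML.one_notMem h1

theorem arithL {N n n' m : ℕ} (hn : n' ≤ n) (hm : N + (n + 2) ^ 2 ≤ m) :
    N + (n - n') * n' + (n' + 2) ^ 2 ≤ m := by
  obtain ⟨k, rfl⟩ := Nat.exists_eq_add_of_le hn
  refine le_trans ?_ hm
  rw [Nat.add_sub_cancel_left]
  nlinarith [Nat.zero_le (k * k), Nat.zero_le (k * n')]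

/-- The general form: a given basis of the logarithms whose first `s` elements are in the kernel. -/
theorem main_genS {J : Type} [Finite J] (n N m s : ℕ) (hm : N + n * (n + 2) + 1 ≤ m)
    (P : ℕ → MvPolynomial (Fin N ⊕ Fin n) ℂ) (R : J → MvPolynomial (Fin N ⊕ Fin n) ℂ)
    (lam : ℕ → ℂ)
    (halg : ∀ j, IsAlgebraic ℚ (Complex.exp (lam j))) (hli : LinearIndependent ℚ lam)
    (hspan : ∀ z : ℂ, IsAlgebraic ℚ (Complex.exp z) → z ∈ Submodule.span ℚ (Set.range lam)) :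
    ∃ (x : ℕ → Fin m → ℚ) (Φ : ℂ →ₗ[ℚ] (Fin m → ℚ)), (∀ j, Φ (lam j) = x j) ∧
      (∀ j < s, x j = 0) ∧
      (∀ j : J, (∀ (n' : ℕ) (ι : Fin n' ↪ Fin n),
          GoodP (PT ι (R j)) (Xr lam (0 : ℕ → Fin m → ℚ) s) ⊥) →
        ∀ (z : Fin N → Qa) (w : Fin n → ℂ),
          (∀ j, w j ∈ Submodule.span Qa {l : ℂ | IsAlgebraic ℚ (Complex.exp l) ∧ Φ l = 0}) →
          eval (Sum.elim (fun l => (z l : ℂ)) w) (R j) = 0 →
          ∀ x : Fin n → ℂ, Rels w x → eval (Sum.elim (fun l => (z l : ℂ)) x) (R j) = 0) ∧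
      ∀ (z : Fin N → Qa) (w : Fin n → ℂ),
        (∀ j, w j ∈ Submodule.span Qa {l : ℂ | IsAlgebraic ℚ (Complex.exp l) ∧ Φ l = 0}) →
        ∀ i, Disjoint (Submodule.span Qa (Set.range w)) (Xr lam x (i + s)) →
          (eval (Sum.elim (fun l => (z l : ℂ)) w) (P i) = 0 →
            ∀ x : Fin n → ℂ, Rels w x → eval (Sum.elim (fun l => (z l : ℂ)) x) (P i) = 0) ∧
          ((∀ a, IsAlgebraic ℚ (coeff a (P i))) → N + (n + 2) ^ 2 ≤ m →
            eval (Sum.elim (fun l => (z l : ℂ)) w) (P i) ∈ Lt →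
            ∃ (b : Qa) (α : Fin n → Qa), ∀ x : Fin n → ℂ, Rels w x →
              eval (Sum.elim (fun l => (z l : ℂ)) x) (P i) = (b : ℂ) + ∑ j, (α j : ℂ) * x j) := by
  classical
  have hlam := FC.baker lam halg hli
  have hlog : ∀ j, lam j ∈ Lsp := fun j => Submodule.subset_span (halg j)
  let T : Type := Σ n' : Fin (n + 1), (Fin (n' : ℕ) ↪ Fin n)
  obtain ⟨x, hx0, hxH, hxG⟩ := exists_xS (m := m) s lam
    (fun i X V => (∀ t : T, GoodP (PT t.2 (P i)) X V) ∧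
      ((∀ a, IsAlgebraic ℚ (coeff a (P i))) → N + (n + 2) ^ 2 ≤ m →
        ∀ t : T, GoodL A0 (PT t.2 (P i)) X V))
    (fun X => ∀ j : J, (∀ (n' : ℕ) (ι : Fin n' ↪ Fin n),
      GoodP (PT ι (R j)) (Xr lam (0 : ℕ → Fin m → ℚ) s) ⊥) →
        ∀ t : T, GoodP (PT t.2 (R j)) X ⊥)
    (fun i X => ⟨fun t => FQ.goodP_base _ _, fun h _ t =>
      FL.goodL_base A0 _ (FL.algVal_of_coeff fun a => mem_A0.2 (PT_alg t.2 (P i) h a)) X⟩)
    (fun j h t => h _ t.2)
    (by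
      intro i r x U hU V h
      refine Filter.Eventually.and ?_ ?_
      · rw [Filter.eventually_all]
        intro t
        refine FQ.goodP_step ?_ lam hlam hlog x U hU (PT t.2 (P i)) V (h.1 t)
        rw [FR.kp_eq]
        exact FR.arith (FR.le_of_emb t.2) hm
      · rw [Filter.eventually_imp_distrib_left]
        intro h1
        rw [Filter.eventually_imp_distrib_left]
        intro h2
        rw [Filter.eventually_all]
        intro t
        refine FL.goodL_step ?_ lam hlam hlog x U hU A0 (PT t.2 (P i))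
          (Submodule.subset_span rfl) V (h.2 h1 h2 t)
        rw [FR.kp_eq]
        exact arithL (FR.le_of_emb t.2) h2)
    (by
      intro r x U hU h
      rw [Filter.eventually_all]
      intro j
      rw [Filter.eventually_imp_distrib_left]
      intro h1
      rw [Filter.eventually_all]
      intro t
      refine FQ.goodP_step ?_ lam hlam hlog x U hU (PT t.2 (R j)) ⊥ (h j h1 t)
      rw [FR.kp_eq]
      exact FR.arith (FR.le_of_emb t.2) hm)
  obtain ⟨Φ, hΦ⟩ := FC.exists_Phi lam hli x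
  have hXL : ∀ r, Xr lam x r ≤ Lsp := by
    intro r z hz
    obtain ⟨c, -, rfl⟩ := FC.mem_Xr.1 hz
    exact Submodule.sum_mem _ fun j _ => Submodule.smul_mem _ _ (hlog j)
  refine ⟨x, Φ, hΦ, hx0, fun j hH z w hw h0 v hv => ?_, fun z w hw i hd => ⟨fun h0 v hv => ?_,
    fun hP hm2 h0 => ?_⟩⟩
  · obtain ⟨r, hr⟩ := FC.exists_r lam x hspan Φ hΦ w hw
    refine FR.dep_main (X := Xr lam x (r + s)) (V := ⊥) (fun n' ι => ?_) z w
      (fun j => FC.Xr_mono lam x (by omega) (hr j)) disjoint_bot_right h0 v hv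
    exact hxH r j hH ⟨⟨n', by have := FR.le_of_emb ι; omega⟩, ι⟩
  · obtain ⟨r, hr⟩ := FC.exists_r lam x hspan Φ hΦ w hw
    refine FR.dep_main (X := Xr lam x (max i r + s)) (V := Xr lam x (i + s)) (fun n' ι => ?_) z w
      (fun j => FC.Xr_mono lam x (by omega) (hr j)) hd h0 v hv
    exact (hxG i (max i r) (le_max_left i r)).1 ⟨⟨n', by have := FR.le_of_emb ι; omega⟩, ι⟩
  · obtain ⟨r, hr⟩ := FC.exists_r lam x hspan Φ hΦ w hw
    obtain ⟨a, ha, α, hα⟩ := depL_main (A := A0) (P := P i) (X := Xr lam x (max i r + s))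
      (V := Xr lam x (i + s)) (fun n' ι =>
        (hxG i (max i r) (le_max_left i r)).2 hP hm2 ⟨⟨n', by have := FR.le_of_emb ι; omega⟩, ι⟩)
      z w (fun j => FC.Xr_mono lam x (by omega) (hr j)) hd
      (disjoint_A0 w fun j => hXL _ (hr j)) h0
    exact ⟨⟨a, mem_algebraicClosure_iff.2 (mem_A0.1 ha)⟩, α, hα⟩

/-- The final form with `2 π i`, for a given basis of the logarithms. -/
theorem main_gen (n N m : ℕ) (hm : N + n * (n + 2) + 1 ≤ m)
    (P : ℕ → MvPolynomial (Fin N ⊕ Fin n) ℂ) (lam : ℕ → ℂ)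
    (halg : ∀ j, IsAlgebraic ℚ (Complex.exp (lam j))) (hli : LinearIndependent ℚ lam)
    (hspan : ∀ z : ℂ, IsAlgebraic ℚ (Complex.exp z) → z ∈ Submodule.span ℚ (Set.range lam)) :
    ∃ (x : ℕ → Fin m → ℚ) (Φ : ℂ →ₗ[ℚ] (Fin m → ℚ)), (∀ j, Φ (lam j) = x j) ∧
      x 0 = 0 ∧
      ∀ (z : Fin N → Qa) (w : Fin n → ℂ),
        (∀ j, w j ∈ Submodule.span Qa {l : ℂ | IsAlgebraic ℚ (Complex.exp l) ∧ Φ l = 0}) →
        ((∀ a, IsAlgebraic ℚ (coeff a (P 0))) →
          eval (Sum.elim (fun l => (z l : ℂ)) w) (P 0) = 0 →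
          ∀ x : Fin n → ℂ, Rels w x → eval (Sum.elim (fun l => (z l : ℂ)) x) (P 0) = 0) ∧
        ∀ i, Disjoint (Submodule.span Qa (Set.range w)) (Xr lam x (i + 1)) →
          (eval (Sum.elim (fun l => (z l : ℂ)) w) (P i) = 0 →
            ∀ x : Fin n → ℂ, Rels w x → eval (Sum.elim (fun l => (z l : ℂ)) x) (P i) = 0) ∧
          ((∀ a, IsAlgebraic ℚ (coeff a (P i))) → N + (n + 2) ^ 2 ≤ m →
            eval (Sum.elim (fun l => (z l : ℂ)) w) (P i) ∈ Lt →
            ∃ (b : Qa) (α : Fin n → Qa), ∀ x : Fin n → ℂ, Rels w x →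
              eval (Sum.elim (fun l => (z l : ℂ)) x) (P i) = (b : ℂ) + ∑ j, (α j : ℂ) * x j) := by
  obtain ⟨x, Φ, hΦ, hx0, h1, h2⟩ := main_genS (J := Unit) n N m 1 hm P (fun _ => P 0) lam halg
    hli hspan
  have hlam := FC.baker lam halg hli
  have hl0 : ¬ IsAlgebraic ℚ (lam 0) := by
    intro h
    have h0 : lam 0 ≠ 0 := hlam.ne_zero 0
    have h1 : (⟨lam 0, mem_algebraicClosure_iff.2 h⟩ : Qa)⁻¹ • lam 0 ∈ Lsp :=
      Lsp.smul_mem _ (Submodule.subset_span (halg 0))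
    have h2 : (⟨lam 0, mem_algebraicClosure_iff.2 h⟩ : Qa)⁻¹ • lam 0 = 1 := by
      change (lam 0)⁻¹ * lam 0 = 1
      exact inv_mul_cancel₀ h0
    rw [h2] at h1
    exact Pool.Agent.Lib.MP_60829e_nt.ML.one_notMem h1
  exact ⟨x, Φ, hΦ, hx0 0 Nat.one_pos, fun z w hw =>
    ⟨fun hP => h1 () (fun n' ι => goodP_pi lam hl0 0 _ (PT_alg ι (P 0) hP)) z w hw, h2 z w hw⟩⟩

end MP60829e.FZ
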