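import Pool.Agent.Lib.MP_60829e_nt.FZ.Start
import Pool.Agent.Lib.MP_60829e_nt.FS.Desc

/-! # The final theorem for relations with value zero, with the sharp constant -/

open MvPolynomial Module

namespace MP60829e.FZ

open MP60829e.ST (Qa Lsp Lt)
open MP60829e.FC (Xr Gen)
open MP60829e.FQ (XQ GoodP)
open MP60829e.FR (Rels PT)

theorem arithS {N n n' m : ℕ} (hn : n' ≤ n) (hm : N + n * (n - 1) + 1 ≤ m) :
    N + (n - n') * n' + n' * (n' - 1) + 1 ≤ m := by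
  refine le_trans ?_ hm
  rcases Nat.eq_zero_or_pos n' with rfl | hpos
  · simp
  obtain ⟨a, rfl⟩ : ∃ a, n' = a + 1 := ⟨n' - 1, by omega⟩
  obtain ⟨k, rfl⟩ := Nat.exists_eq_add_of_le hn
  have e1 : a + 1 - 1 = a := by omega
  have e2 : a + 1 + k - 1 = a + k := by omega
  have e3 : a + 1 + k - (a + 1) = k := by omega
  rw [e1, e2, e3]
  nlinarith [Nat.zero_le (k * k), Nat.zero_le (k * a)]

/-- The general form for a given basis of the logarithms whose first `s` elements are in the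
kernel. -/
theorem main_genA {J : Type} [Finite J] (n N m s : ℕ) (hm : N + n * (n - 1) + 1 ≤ m)
    (P : ℕ → MvPolynomial (Fin N ⊕ Fin n) ℂ) (R : J → MvPolynomial (Fin N ⊕ Fin n) ℂ)
    (lam : ℕ → ℂ)
    (halg : ∀ j, IsAlgebraic ℚ (Complex.exp (lam j))) (hli : LinearIndependent ℚ lam)
    (hspan : ∀ z : ℂ, IsAlgebraic ℚ (Complex.exp z) → z ∈ Submodule.span ℚ (Set.range lam)) :
    ∃ (x : ℕ → Fin m → ℚ) (Φ : ℂ →ₗ[ℚ] (Fin m → ℚ)), (∀ j, Φ (lam j) = x j) ∧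
      (∀ j < s, x j = 0) ∧
      (∀ j : J, (∀ (n' : ℕ) (ι : Fin n' ↪ Fin n),
          GoodP (PT ι (R j)) (Xr lam (0 : ℕ → Fin m → ℚ) s) ⊥) →
        ∀ (z : Fin N → Qa) (w : Fin n → ℂ),
          (∀ j, w j ∈ Submodule.span Qa {l : ℂ | IsAlgebraic ℚ (Complex.exp l) ∧ Φ l = 0}) →
          eval (Sum.elim (fun l => (z l : ℂ)) w) (R j) = 0 →
          ∀ x : Fin n → ℂ, Rels w x → eval (Sum.elim (fun l => (z l : ℂ)) x) (R j) = 0) ∧
      ∀ (z : Fin N → Qa) (w : Fin n → ℂ),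
        (∀ j, w j ∈ Submodule.span Qa {l : ℂ | IsAlgebraic ℚ (Complex.exp l) ∧ Φ l = 0}) →
        ∀ i, Disjoint (Submodule.span Qa (Set.range w)) (Xr lam x (i + s)) →
          eval (Sum.elim (fun l => (z l : ℂ)) w) (P i) = 0 →
            ∀ x : Fin n → ℂ, Rels w x → eval (Sum.elim (fun l => (z l : ℂ)) x) (P i) = 0 := by
  classical
  have hlam := FC.baker lam halg hli
  have hlog : ∀ j, lam j ∈ Lsp := fun j => Submodule.subset_span (halg j)
  let T : Type := Σ n' : Fin (n + 1), (Fin (n' : ℕ) ↪ Fin n)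
  obtain ⟨x, hx0, hxH, hxG⟩ := exists_xS (m := m) s lam
    (fun i X V => ∀ t : T, GoodP (PT t.2 (P i)) X V)
    (fun X => ∀ j : J, (∀ (n' : ℕ) (ι : Fin n' ↪ Fin n),
      GoodP (PT ι (R j)) (Xr lam (0 : ℕ → Fin m → ℚ) s) ⊥) →
        ∀ t : T, GoodP (PT t.2 (R j)) X ⊥)
    (fun i X t => FQ.goodP_base _ _)
    (fun j h t => h _ t.2)
    (by
      intro i r x U hU V h
      rw [Filter.eventually_all]
      intro t
      refine FS.goodP_stepS ?_ lam hlam hlog x U hU (PT t.2 (P i)) V (h t)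
      rw [FR.kp_eq]
      exact arithS (FR.le_of_emb t.2) hm)
    (by
      intro r x U hU h
      rw [Filter.eventually_all]
      intro j
      rw [Filter.eventually_imp_distrib_left]
      intro h1
      rw [Filter.eventually_all]
      intro t
      refine FS.goodP_stepS ?_ lam hlam hlog x U hU (PT t.2 (R j)) ⊥ (h j h1 t)
      rw [FR.kp_eq]
      exact arithS (FR.le_of_emb t.2) hm)
  obtain ⟨Φ, hΦ⟩ := FC.exists_Phi lam hli x
  refine ⟨x, Φ, hΦ, hx0, fun j hH z w hw h0 v hv => ?_, fun z w hw i hd h0 v hv => ?_⟩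
  · obtain ⟨r, hr⟩ := FC.exists_r lam x hspan Φ hΦ w hw
    refine FR.dep_main (X := Xr lam x (r + s)) (V := ⊥) (fun n' ι => ?_) z w
      (fun j => FC.Xr_mono lam x (by omega) (hr j)) disjoint_bot_right h0 v hv
    exact hxH r j hH ⟨⟨n', by have := FR.le_of_emb ι; omega⟩, ι⟩
  · obtain ⟨r, hr⟩ := FC.exists_r lam x hspan Φ hΦ w hw
    refine FR.dep_main (X := Xr lam x (max i r + s)) (V := Xr lam x (i + s)) (fun n' ι => ?_) z w
      (fun j => FC.Xr_mono lam x (by omega) (hr j)) hd h0 v hv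
    exact hxG i (max i r) (le_max_left i r) ⟨⟨n', by have := FR.le_of_emb ι; omega⟩, ι⟩

/-- The final theorem for relations with value zero. -/
theorem extS (n N m : ℕ) (hm : N + n * (n - 1) + 1 ≤ m) (E : Submodule ℚ ℂ)
    [FiniteDimensional ℚ E] (hE : ∀ l ∈ E, IsAlgebraic ℚ (Complex.exp l))
    (P : ℕ → MvPolynomial (Fin N ⊕ Fin n) ℂ) :
    ∃ (Φ : ℂ →ₗ[ℚ] (Fin m → ℚ)) (F : Submodule ℚ ℂ) (V : ℕ → Submodule ℚ ℂ),
      (∀ l : ℂ, l ∈ F ↔ IsAlgebraic ℚ (Complex.exp l) ∧ Φ l = 0) ∧ E ≤ F ∧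
      (∀ D : ℕ, (n + D).choose n ≤ N →
        E ≤ Submodule.span ℚ {2 * Real.pi * Complex.I} ∨ Q1Deg n D E → Q1Deg n D F) ∧
      V 0 = E ∧ Monotone V ∧ (∀ i, V i ≤ F ∧ FiniteDimensional ℚ (V i)) ∧
      ∀ (i : ℕ) (z : Fin N → ℂ) (w : Fin n → ℂ), (∀ l, IsAlgebraic ℚ (z l)) →
        (∀ j, w j ∈ Submodule.span (algebraicClosure ℚ ℂ) (F : Set ℂ)) →
        Disjoint (Submodule.span (algebraicClosure ℚ ℂ) (Set.range w))
          (Submodule.span (algebraicClosure ℚ ℂ) (V i : Set ℂ)) →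
        eval (Sum.elim z w) (P i) = 0 →
          ∀ x : Fin n → ℂ, (∀ q : Fin n → ℂ, (∀ j, IsAlgebraic ℚ (q j)) →
            ∑ j, q j * w j = 0 → ∑ j, q j * x j = 0) → eval (Sum.elim z x) (P i) = 0 := by
  classical
  obtain ⟨s, lam, hlamE, halg, hli, hspan⟩ := exists_lamE E hE
  -- the universal polynomials
  have hR : ∀ D : Fin (N + 1), ∃ R : MvPolynomial (Fin N ⊕ Fin n) ℂ,
      (n + (D : ℕ)).choose n ≤ N →
      (∀ g : MvPolynomial (Fin n) ℂ, (∀ a, IsAlgebraic ℚ (coeff a g)) → g.totalDegree ≤ D →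
        ∃ z : Fin N → Qa, ∀ x : Fin n → ℂ,
          eval (Sum.elim (fun l => (z l : ℂ)) x) R = eval x g) ∧
      ∀ z : Fin N → Qa, ∃ g : MvPolynomial (Fin n) ℂ,
        (∀ a, IsAlgebraic ℚ (coeff a g)) ∧ g.totalDegree ≤ D ∧
          ∀ x : Fin n → ℂ, eval (Sum.elim (fun l => (z l : ℂ)) x) R = eval x g := by
    intro D
    by_cases h : (n + (D : ℕ)).choose n ≤ N
    · obtain ⟨R, h1, h2⟩ := exists_univN n D N h
      exact ⟨R, fun _ => ⟨h1, h2⟩⟩
    · exact ⟨0, fun h' => absurd h' h⟩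
  choose R hR using hR
  obtain ⟨x, Φ, hΦ, hx0, hmain1, hmain2⟩ := main_genA n N m s hm P R lam halg hli hspan
  have hF : ∀ l : ℂ, l ∈ SE.Lg ⊓ LinearMap.ker Φ ↔ IsAlgebraic ℚ (Complex.exp l) ∧ Φ l = 0 := by
    intro l
    rw [Submodule.mem_inf, LinearMap.mem_ker]
    rfl
  have hFs : ((SE.Lg ⊓ LinearMap.ker Φ : Submodule ℚ ℂ) : Set ℂ) =
      {l : ℂ | IsAlgebraic ℚ (Complex.exp l) ∧ Φ l = 0} := by
    ext l
    exact hF l
  have hV0 : XQ lam x (0 + s) = E := by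
    rw [zero_add, ← hlamE]
    refine le_antisymm (FQ.XQ_le lam x s) ?_
    rw [Submodule.span_le]
    rintro _ ⟨j, rfl⟩
    refine ⟨fun i => if i = j then 1 else 0, fun t => ?_, ?_⟩
    · refine Finset.sum_eq_zero fun i _ => ?_
      rw [hx0 i i.2, Pi.zero_apply, mul_zero]
    · rw [Finset.sum_eq_single j]
      · beta_reduce
        rw [if_pos rfl, Rat.cast_one, one_mul]
      · intro i _ hi
        beta_reduce
        rw [if_neg hi, Rat.cast_zero, zero_mul]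
      · intro h
        exact absurd (Finset.mem_univ j) h
  have hVF : ∀ i, XQ lam x (i + s) ≤ SE.Lg ⊓ LinearMap.ker Φ := fun i v hv =>
    (hF v).2 (FQ.XQ_sub lam halg x Φ hΦ (i + s) v hv)
  refine ⟨Φ, SE.Lg ⊓ LinearMap.ker Φ, fun i => XQ lam x (i + s), hF, ?_, ?_, hV0,
    fun i j hij => FQ.XQ_mono lam x (Nat.add_le_add_right hij s),
    fun i => ⟨hVF i, FQ.finite_XQ lam x (i + s)⟩, ?_⟩
  · rw [← hV0]
    exact hVF 0
  · intro D hD hQ'
    have hQ : Q1Deg n D E := by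
      rcases hQ' with h | h
      · exact (q1deg_two_pi n D).mono h
      · exact h
    rcases Nat.eq_zero_or_pos n with rfl | hn
    · intro g _ _ w _ h0 y _
      rw [Subsingleton.elim y w]
      exact h0
    · have hDN := le_of_choose hn hD
      obtain ⟨h1, h2⟩ := hR ⟨D, hDN⟩ hD
      refine q1deg_of (R ⟨D, hDN⟩) h1 _ ?_
      rw [hFs]
      refine hmain1 ⟨D, hDN⟩ (fun n' ι => goodP_E (R ⟨D, hDN⟩) h2 hE hQ ?_ ι)
      rintro _ ⟨c, -, rfl⟩
      refine Submodule.sum_mem _ fun j _ => Submodule.smul_mem _ _ (Submodule.subset_span ?_)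
      rw [← hlamE]
      exact Submodule.subset_span ⟨j, rfl⟩
  · intro i z w hz hw hd h0 v hv
    obtain ⟨z', rfl⟩ : ∃ z' : Fin N → Qa, z = fun l => (z' l : ℂ) :=
      ⟨fun l => ⟨z l, mem_algebraicClosure_iff.2 (hz l)⟩, rfl⟩
    rw [hFs] at hw
    exact hmain2 z' w hw i (hd.mono_right (FQ.Xr_le_span lam x (i + s))) h0 v (rels_of hv)

end MP60829e.FZ
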