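import Pool.Agent.Lib.MP_60829e_nt.FQ.Rec

/-! # The recursion for abstract properties, starting with the logarithm of index `0` in the
kernel -/

open MvPolynomial Module

namespace MP60829e.FZ

open MP60829e.ST (Qa Lsp Lt)
open MP60829e.FC (Xr Gen)
open MP60829e.FQ (Xr_congr)

/-- The invariant of the recursion. -/
private def Inv {m : ℕ} (lam : ℕ → ℂ) (G : ℕ → Submodule Qa ℂ → Submodule Qa ℂ → Prop)
    (H : Submodule Qa ℂ → Prop) (r : ℕ) (x : ℕ → Fin m → ℚ) : Prop :=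
  x 0 = 0 ∧ H (Xr lam x (r + 1)) ∧ ∀ i ≤ r, G i (Xr lam x (r + 1)) (Xr lam x (i + 1))

private theorem inv_step {m : ℕ} (lam : ℕ → ℂ)
    (G : ℕ → Submodule Qa ℂ → Submodule Qa ℂ → Prop) (H : Submodule Qa ℂ → Prop)
    (hbase : ∀ i X, G i X X)
    (hstep : ∀ (i r : ℕ) (x : ℕ → Fin m → ℚ) (U : Ultrafilter (Fin m → ℚ)), Gen U → ∀ V,
      G i (Xr lam x (r + 1)) V → ∀ᶠ a in (U : Filter (Fin m → ℚ)),
        G i (Xr lam (Function.update x (r + 1) a) (r + 2)) V)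
    (hstep0 : ∀ (r : ℕ) (x : ℕ → Fin m → ℚ) (U : Ultrafilter (Fin m → ℚ)), Gen U →
      H (Xr lam x (r + 1)) → ∀ᶠ a in (U : Filter (Fin m → ℚ)),
        H (Xr lam (Function.update x (r + 1) a) (r + 2)))
    (r : ℕ) (x : ℕ → Fin m → ℚ) (h : Inv lam G H r x) :
    ∃ a : Fin m → ℚ, Inv lam G H (r + 1) (Function.update x (r + 1) a) := by
  obtain ⟨U, hU⟩ := FC.exists_gen m
  have h1 : ∀ᶠ a in (U : Filter (Fin m → ℚ)), ∀ i ∈ Set.Iic r,
      G i (Xr lam (Function.update x (r + 1) a) (r + 2)) (Xr lam x (i + 1)) := by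
    rw [Filter.eventually_all_finite (Set.finite_Iic r)]
    intro i hi
    exact hstep i r x U hU _ (h.2.2 i hi)
  have h2 := hstep0 r x U hU h.2.1
  obtain ⟨a, ha, ha0⟩ := (h1.and h2).exists
  refine ⟨a, ?_, ha0, fun i hi => ?_⟩
  · rw [Function.update_of_ne (by omega)]
    exact h.1
  · rcases Nat.lt_or_ge r i with hri | hri
    · obtain rfl : i = r + 1 := by omega
      exact hbase _ _
    · have h3 : Xr lam (Function.update x (r + 1) a) (i + 1) = Xr lam x (i + 1) :=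
        Xr_congr lam fun j hj => Function.update_of_ne (by omega) _ _
      rw [h3]
      exact ha i hri

/-- The recursion. -/
theorem exists_xG {m : ℕ} (lam : ℕ → ℂ)
    (G : ℕ → Submodule Qa ℂ → Submodule Qa ℂ → Prop) (H : Submodule Qa ℂ → Prop)
    (hbase : ∀ i X, G i X X)
    (hbase0 : ∀ x : ℕ → Fin m → ℚ, x 0 = 0 → H (Xr lam x 1))
    (hstep : ∀ (i r : ℕ) (x : ℕ → Fin m → ℚ) (U : Ultrafilter (Fin m → ℚ)), Gen U → ∀ V,
      G i (Xr lam x (r + 1)) V → ∀ᶠ a in (U : Filter (Fin m → ℚ)),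
        G i (Xr lam (Function.update x (r + 1) a) (r + 2)) V)
    (hstep0 : ∀ (r : ℕ) (x : ℕ → Fin m → ℚ) (U : Ultrafilter (Fin m → ℚ)), Gen U →
      H (Xr lam x (r + 1)) → ∀ᶠ a in (U : Filter (Fin m → ℚ)),
        H (Xr lam (Function.update x (r + 1) a) (r + 2))) :
    ∃ x : ℕ → Fin m → ℚ, x 0 = 0 ∧ (∀ r, H (Xr lam x (r + 1))) ∧
      ∀ i r, i ≤ r → G i (Xr lam x (r + 1)) (Xr lam x (i + 1)) := by
  choose a ha using fun (r : ℕ) (x : ℕ → Fin m → ℚ) (h : Inv lam G H r x) =>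
    inv_step lam G H hbase hstep hstep0 r x h
  have h0 : Inv lam G H 0 (0 : ℕ → Fin m → ℚ) := by
    refine ⟨rfl, hbase0 _ rfl, fun i hi => ?_⟩
    obtain rfl : i = 0 := Nat.le_zero.1 hi
    exact hbase _ _
  let s : ∀ r : ℕ, {x : ℕ → Fin m → ℚ // Inv lam G H r x} := fun r =>
    Nat.rec ⟨0, h0⟩
      (fun r p => ⟨Function.update p.1 (r + 1) (a r p.1 p.2), ha r p.1 p.2⟩) r
  have hs : ∀ r, (s (r + 1)).1 = Function.update (s r).1 (r + 1) (a r (s r).1 (s r).2) :=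
    fun r => rfl
  obtain ⟨x, hx⟩ : ∃ x : ℕ → Fin m → ℚ, x = fun r => (s r).1 r := ⟨_, rfl⟩
  have key : ∀ r, ∀ j ≤ r, (s r).1 j = x j := by
    intro r
    induction r with
    | zero =>
      intro j hj
      obtain rfl : j = 0 := Nat.le_zero.1 hj
      rw [hx]
    | succ r ih =>
      intro j hj
      rcases Nat.lt_or_ge r j with h | h
      · obtain rfl : j = r + 1 := by omega
        rw [hx]
      · rw [hs, Function.update_of_ne (by omega)]
        exact ih j h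
  have hX : ∀ i r, i ≤ r → Xr lam x (i + 1) = Xr lam (s r).1 (i + 1) := fun i r hir =>
    Xr_congr lam fun j hj => (key r j (by omega)).symm
  refine ⟨x, ?_, fun r => ?_, fun i r hir => ?_⟩
  · rw [hx]
    exact (s 0).2.1
  · rw [hX r r le_rfl]
    exact (s r).2.2.1
  · rw [hX r r le_rfl, hX i r hir]
    exact (s r).2.2.2 i hir

end MP60829e.FZ
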