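import Pool.Agent.Lib.MP_60829e_nt.FQ.Rec

/-! # The recursion for abstract properties, with the first `s` logarithms in the kernel -/

open MvPolynomial Module

namespace MP60829e.FZ

open MP60829e.ST (Qa Lsp Lt)
open MP60829e.FC (Xr Gen)
open MP60829e.FQ (Xr_congr)

/-- The invariant of the recursion. -/
private def Inv {m : ℕ} (s : ℕ) (lam : ℕ → ℂ) (G : ℕ → Submodule Qa ℂ → Submodule Qa ℂ → Prop)
    (H : Submodule Qa ℂ → Prop) (r : ℕ) (x : ℕ → Fin m → ℚ) : Prop :=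
  (∀ j < s, x j = 0) ∧ H (Xr lam x (r + s)) ∧
    ∀ i ≤ r, G i (Xr lam x (r + s)) (Xr lam x (i + s))

private theorem inv_step {m : ℕ} (s : ℕ) (lam : ℕ → ℂ)
    (G : ℕ → Submodule Qa ℂ → Submodule Qa ℂ → Prop) (H : Submodule Qa ℂ → Prop)
    (hbase : ∀ i X, G i X X)
    (hstep : ∀ (i r : ℕ) (x : ℕ → Fin m → ℚ) (U : Ultrafilter (Fin m → ℚ)), Gen U → ∀ V,
      G i (Xr lam x r) V → ∀ᶠ a in (U : Filter (Fin m → ℚ)),
        G i (Xr lam (Function.update x r a) (r + 1)) V)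
    (hstep0 : ∀ (r : ℕ) (x : ℕ → Fin m → ℚ) (U : Ultrafilter (Fin m → ℚ)), Gen U →
      H (Xr lam x r) → ∀ᶠ a in (U : Filter (Fin m → ℚ)),
        H (Xr lam (Function.update x r a) (r + 1)))
    (r : ℕ) (x : ℕ → Fin m → ℚ) (h : Inv s lam G H r x) :
    ∃ a : Fin m → ℚ, Inv s lam G H (r + 1) (Function.update x (r + s) a) := by
  obtain ⟨U, hU⟩ := FC.exists_gen m
  have h1 : ∀ᶠ a in (U : Filter (Fin m → ℚ)), ∀ i ∈ Set.Iic r,
      G i (Xr lam (Function.update x (r + s) a) (r + s + 1)) (Xr lam x (i + s)) := by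
    rw [Filter.eventually_all_finite (Set.finite_Iic r)]
    intro i hi
    exact hstep i (r + s) x U hU _ (h.2.2 i hi)
  have h2 := hstep0 (r + s) x U hU h.2.1
  obtain ⟨a, ha, ha0⟩ := (h1.and h2).exists
  have hrs : r + 1 + s = r + s + 1 := by omega
  refine ⟨a, fun j hj => ?_, ?_, fun i hi => ?_⟩
  · rw [Function.update_of_ne (by omega)]
    exact h.1 j hj
  · rw [hrs]
    exact ha0
  · rw [hrs]
    rcases Nat.lt_or_ge r i with hri | hri
    · obtain rfl : i = r + 1 := by omega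
      rw [hrs]
      exact hbase _ _
    · have h3 : Xr lam (Function.update x (r + s) a) (i + s) = Xr lam x (i + s) :=
        Xr_congr lam fun j hj => Function.update_of_ne (by omega) _ _
      rw [h3]
      exact ha i hri

/-- The recursion. -/
theorem exists_xS {m : ℕ} (s : ℕ) (lam : ℕ → ℂ)
    (G : ℕ → Submodule Qa ℂ → Submodule Qa ℂ → Prop) (H : Submodule Qa ℂ → Prop)
    (hbase : ∀ i X, G i X X)
    (hbase0 : H (Xr lam (0 : ℕ → Fin m → ℚ) s))
    (hstep : ∀ (i r : ℕ) (x : ℕ → Fin m → ℚ) (U : Ultrafilter (Fin m → ℚ)), Gen U → ∀ V,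
      G i (Xr lam x r) V → ∀ᶠ a in (U : Filter (Fin m → ℚ)),
        G i (Xr lam (Function.update x r a) (r + 1)) V)
    (hstep0 : ∀ (r : ℕ) (x : ℕ → Fin m → ℚ) (U : Ultrafilter (Fin m → ℚ)), Gen U →
      H (Xr lam x r) → ∀ᶠ a in (U : Filter (Fin m → ℚ)),
        H (Xr lam (Function.update x r a) (r + 1))) :
    ∃ x : ℕ → Fin m → ℚ, (∀ j < s, x j = 0) ∧ (∀ r, H (Xr lam x (r + s))) ∧
      ∀ i r, i ≤ r → G i (Xr lam x (r + s)) (Xr lam x (i + s)) := by
  choose a ha using fun (r : ℕ) (x : ℕ → Fin m → ℚ) (h : Inv s lam G H r x) =>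
    inv_step s lam G H hbase hstep hstep0 r x h
  have h0 : Inv s lam G H 0 (0 : ℕ → Fin m → ℚ) := by
    refine ⟨fun j _ => rfl, ?_, fun i hi => ?_⟩
    · rw [zero_add]
      exact hbase0
    · obtain rfl : i = 0 := Nat.le_zero.1 hi
      exact hbase _ _
  let q : ∀ r : ℕ, {x : ℕ → Fin m → ℚ // Inv s lam G H r x} := fun r =>
    Nat.rec ⟨0, h0⟩
      (fun r p => ⟨Function.update p.1 (r + s) (a r p.1 p.2), ha r p.1 p.2⟩) r
  have hq : ∀ r, (q (r + 1)).1 = Function.update (q r).1 (r + s) (a r (q r).1 (q r).2) :=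
    fun r => rfl
  have hq0 : (q 0).1 = 0 := rfl
  have hstab : ∀ r k, ∀ j < r + s, (q (r + k)).1 j = (q r).1 j := by
    intro r k
    induction k with
    | zero => exact fun j _ => rfl
    | succ k ih =>
      intro j hj
      rw [← add_assoc, hq, Function.update_of_ne (by omega)]
      exact ih j hj
  obtain ⟨x, hx⟩ : ∃ x : ℕ → Fin m → ℚ, x = fun j => (q (j + 1)).1 j := ⟨_, rfl⟩
  have key : ∀ r, ∀ j < r + s, (q r).1 j = x j := by
    intro r j hj
    rw [hx]
    dsimp only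
    rcases le_total r (j + 1) with h | h
    · obtain ⟨k, hk⟩ := Nat.exists_eq_add_of_le h
      rw [hk]
      exact (hstab r k j hj).symm
    · obtain ⟨k, hk⟩ := Nat.exists_eq_add_of_le h
      rw [hk]
      exact hstab (j + 1) k j (by omega)
  have hX : ∀ i r, i ≤ r → Xr lam x (i + s) = Xr lam (q r).1 (i + s) := fun i r hir =>
    Xr_congr lam fun j hj => (key r j (by omega)).symm
  refine ⟨x, fun j hj => ?_, fun r => ?_, fun i r hir => ?_⟩
  · rw [← key 0 j (by omega), hq0]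
    rfl
  · rw [hX r r le_rfl]
    exact (q r).2.2.1
  · rw [hX r r le_rfl, hX i r hir]
    exact (q r).2.2.2 i hir

end MP60829e.FZ
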